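import Pool.Agent.H487_FV.Gauss

/-!
The leading term of a difference of exponential sums.
-/

set_option autoImplicit false

namespace Pool.Agent.H487_FV

open Finset

section supp

variable {σ : Type*} {O : Type*} [CommRing O]

/-- every monomial `Γ ^ o * x ^ E` of `P` has `i ≤ o` and `|E| ≤ e + s * (o - i)` -/
def Sl (P : Polynomial (MvPolynomial σ O)) (i e s : ℕ) : Prop :=
  ∀ o, ∀ E : σ →₀ ℕ, MvPolynomial.coeff E (P.coeff o) ≠ 0 → i ≤ o ∧ E.degree ≤ e + s * (o - i)

lemma Sl.mul {P Q : Polynomial (MvPolynomial σ O)} {i₁ e₁ i₂ e₂ s : ℕ} (hP : Sl P i₁ e₁ s)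
    (hQ : Sl Q i₂ e₂ s) : Sl (P * Q) (i₁ + i₂) (e₁ + e₂) s := by
  classical
  intro o E h
  rw [Polynomial.coeff_mul, MvPolynomial.coeff_sum] at h
  obtain ⟨⟨a, b⟩, hab, h1⟩ := Finset.exists_ne_zero_of_sum_ne_zero h
  rw [MvPolynomial.coeff_mul] at h1
  obtain ⟨⟨E₁, E₂⟩, hE, h2⟩ := Finset.exists_ne_zero_of_sum_ne_zero h1
  rw [Finset.HasAntidiagonal.mem_antidiagonal] at hab hE
  dsimp only at hab hE h2
  obtain ⟨h3, h4⟩ := hP a E₁ (left_ne_zero_of_mul h2)
  obtain ⟨h5, h6⟩ := hQ b E₂ (right_ne_zero_of_mul h2)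
  refine ⟨by omega, ?_⟩
  rw [← hE, map_add]
  calc E₁.degree + E₂.degree ≤ (e₁ + s * (a - i₁)) + (e₂ + s * (b - i₂)) := add_le_add h4 h6
    _ = e₁ + e₂ + s * ((a - i₁) + (b - i₂)) := by ring
    _ = e₁ + e₂ + s * (o - (i₁ + i₂)) := by
        rw [show (a - i₁) + (b - i₂) = o - (i₁ + i₂) by omega]

lemma Sl.one (s : ℕ) : Sl (1 : Polynomial (MvPolynomial σ O)) 0 0 s := by
  classical
  intro o E h
  rw [Polynomial.coeff_one] at h
  split_ifs at h with h0
  · rw [MvPolynomial.coeff_one] at h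
    split_ifs at h with h1
    · subst h1; simp
    · exact absurd rfl h
  · exact absurd (MvPolynomial.coeff_zero E) h

lemma Sl.prod {ι : Type*} (t : Finset ι) (P : ι → Polynomial (MvPolynomial σ O)) (i e : ι → ℕ)
    (s : ℕ) (h : ∀ r ∈ t, Sl (P r) (i r) (e r) s) :
    Sl (∏ r ∈ t, P r) (∑ r ∈ t, i r) (∑ r ∈ t, e r) s := by
  classical
  induction t using Finset.induction_on with
  | empty => simpa using Sl.one s
  | insert a t ha ih =>
    rw [Finset.prod_insert ha, Finset.sum_insert ha, Finset.sum_insert ha]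
    exact (h a (Finset.mem_insert_self a t)).mul
      (ih fun r hr => h r (Finset.mem_insert_of_mem hr))

lemma Sl.prod_zero {ι : Type*} (t : Finset ι) (P : ι → Polynomial (MvPolynomial σ O))
    (s : ℕ) (h : ∀ r ∈ t, Sl (P r) 0 0 s) : Sl (∏ r ∈ t, P r) 0 0 s := by
  have := Sl.prod t P (fun _ => 0) (fun _ => 0) s h
  simpa using this

/-- from slope `δ` to the precise bound for `P - 1` -/
lemma Sl.sub_one {P : Polynomial (MvPolynomial σ O)} {δ s : ℕ} (hP : Sl P 0 0 δ) (hδ : δ ≤ s)
    (h0 : P.coeff 0 = 1) : Sl (P - 1) 1 δ s := by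
  intro o E h
  rw [Polynomial.coeff_sub, Polynomial.coeff_one] at h
  rcases Nat.eq_zero_or_pos o with rfl | ho
  · rw [h0] at h; simp at h
  · rw [if_neg (by omega), sub_zero] at h
    obtain ⟨_, h2⟩ := hP o E h
    refine ⟨ho, ?_⟩
    have h3 : δ * o = δ + δ * (o - 1) := by
      obtain ⟨k, rfl⟩ : ∃ k, o = k + 1 := ⟨o - 1, by omega⟩
      rw [Nat.add_sub_cancel]; ring
    have h4 : δ * (o - 1) ≤ s * (o - 1) := Nat.mul_le_mul_right _ hδ
    rw [Nat.sub_zero, zero_add] at h2
    omega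

lemma Sl.mono {P : Polynomial (MvPolynomial σ O)} {i e s s' : ℕ} (hP : Sl P i e s) (h : s ≤ s') :
    Sl P i e s' := by
  intro o E hE
  obtain ⟨h1, h2⟩ := hP o E hE
  exact ⟨h1, h2.trans (Nat.add_le_add_left (Nat.mul_le_mul_right _ h) _)⟩

/-- a factor `1 + ∑ Γ ^ l c_l x ^ (l w)` -/
noncomputable def fac (n : ℕ) (c : ℕ → O) (w : σ →₀ ℕ) : Polynomial (MvPolynomial σ O) :=
  1 + ∑ l ∈ Finset.Icc 1 n, Polynomial.monomial l (MvPolynomial.monomial (l • w) (c l))

lemma Sl.fac (n : ℕ) (c : ℕ → O) (w : σ →₀ ℕ) {s : ℕ} (hw : w.degree ≤ s) :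
    Sl (fac n c w) 0 0 s := by
  classical
  intro o E h
  refine ⟨Nat.zero_le _, ?_⟩
  rw [H487_FV.fac, Polynomial.coeff_add, MvPolynomial.coeff_add] at h
  by_cases h1 : MvPolynomial.coeff E ((1 : Polynomial (MvPolynomial σ O)).coeff o) = 0
  · rw [h1, zero_add, Polynomial.finsetSum_coeff, MvPolynomial.coeff_sum] at h
    obtain ⟨l, hl, h2⟩ := Finset.exists_ne_zero_of_sum_ne_zero h
    rw [Polynomial.coeff_monomial] at h2
    split_ifs at h2 with h3
    · subst h3
      rw [MvPolynomial.coeff_monomial] at h2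
      split_ifs at h2 with h4
      · subst h4
        rw [map_nsmul, smul_eq_mul, zero_add, Nat.sub_zero, mul_comm]
        exact Nat.mul_le_mul_right _ hw
      · exact absurd rfl h2
    · exact absurd (MvPolynomial.coeff_zero E) h2
  · exact (Sl.one s o E h1).2

lemma fac_coeff_zero (n : ℕ) (c : ℕ → O) (w : σ →₀ ℕ) : (fac n c w).coeff 0 = 1 := by
  rw [fac, Polynomial.coeff_add, Polynomial.coeff_one_zero, Polynomial.finsetSum_coeff,
    Finset.sum_eq_zero, add_zero]
  intro l hl
  rw [Finset.mem_Icc] at hl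
  rw [Polynomial.coeff_monomial, if_neg (by omega)]

lemma fac_coeff_one {n : ℕ} (hn : 1 ≤ n) (c : ℕ → O) (w : σ →₀ ℕ) :
    (fac n c w).coeff 1 = MvPolynomial.monomial w (c 1) := by
  rw [fac, Polynomial.coeff_add, Polynomial.coeff_one, if_neg (by omega), zero_add,
    Polynomial.finsetSum_coeff, Finset.sum_eq_single 1]
  · rw [Polynomial.coeff_monomial, if_pos rfl, one_smul]
  · intro l _ hl
    rw [Polynomial.coeff_monomial, if_neg hl]
  · intro h
    exact absurd (Finset.mem_Icc.mpr ⟨le_rfl, hn⟩) h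

lemma coeff_zero_prod {R : Type*} [CommRing R] {ι : Type*} (t : Finset ι) (P : ι → Polynomial R)
    (h : ∀ r ∈ t, (P r).coeff 0 = 1) : (∏ r ∈ t, P r).coeff 0 = 1 := by
  rw [Polynomial.coeff_zero_prod]
  exact Finset.prod_eq_one h

lemma coeff_one_prod {R : Type*} [CommRing R] {ι : Type*} (t : Finset ι) (P : ι → Polynomial R)
    (h : ∀ r ∈ t, (P r).coeff 0 = 1) :
    (∏ r ∈ t, P r).coeff 1 = ∑ r ∈ t, (P r).coeff 1 := by
  classical
  induction t using Finset.induction_on with
  | empty => simp [Polynomial.coeff_one]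
  | insert a t ha ih =>
    rw [Finset.prod_insert ha, Finset.sum_insert ha, Polynomial.coeff_mul,
      Finset.Nat.antidiagonal_succ, Finset.sum_cons, Finset.Nat.antidiagonal_zero]
    simp only [Finset.map_singleton, Finset.sum_singleton]
    rw [h a (Finset.mem_insert_self a t), one_mul]
    change _ + (P a).coeff 1 * (∏ r ∈ t, P r).coeff 0 = _
    rw [coeff_zero_prod t P fun r hr => h r (Finset.mem_insert_of_mem hr), mul_one,
      ih fun r hr => h r (Finset.mem_insert_of_mem hr), add_comm]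

lemma coeff_card_prod {R : Type*} [CommRing R] {ι : Type*} (t : Finset ι) (P : ι → Polynomial R)
    (h : ∀ r ∈ t, (P r).coeff 0 = 0) :
    (∏ r ∈ t, P r).coeff t.card = ∏ r ∈ t, (P r).coeff 1 := by
  classical
  induction t using Finset.induction_on with
  | empty => simp
  | insert a t ha ih =>
    rw [Finset.prod_insert ha, Finset.prod_insert ha, Finset.card_insert_of_notMem ha]
    have h1 : P a = Polynomial.X * (P a).divX := by
      have := Polynomial.X_mul_divX_add (P a)
      rw [h a (Finset.mem_insert_self a t), map_zero, add_zero] at this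
      exact this.symm
    have h2 : (P a).coeff 1 = (P a).divX.coeff 0 := by rw [Polynomial.coeff_divX]
    rw [h2, ← ih fun r hr => h r (Finset.mem_insert_of_mem hr)]
    conv_lhs => rw [h1, mul_assoc, Polynomial.coeff_X_mul]
    -- all lower coefficients of the product vanish
    have h3 : ∀ k < t.card, (∏ r ∈ t, P r).coeff k = 0 := by
      intro k hk
      have h4 : Polynomial.X ^ t.card ∣ ∏ r ∈ t, P r := by
        rw [← Finset.prod_const]
        apply Finset.prod_dvd_prod_of_dvd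
        intro r hr
        exact Polynomial.X_dvd_iff.mpr (h r (Finset.mem_insert_of_mem hr))
      exact Polynomial.X_pow_dvd_iff.mp h4 k hk
    rw [Polynomial.coeff_mul, Finset.sum_eq_single (0, t.card)]
    · intro b hb hb2
      rw [Finset.HasAntidiagonal.mem_antidiagonal] at hb
      rw [h3 b.2, mul_zero]
      rcases Nat.lt_or_ge b.2 t.card with h4 | h4
      · exact h4
      · exfalso
        apply hb2
        ext
        · show b.1 = 0; omega
        · show b.2 = t.card; omega
    · intro h4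
      exact absurd (Finset.HasAntidiagonal.mem_antidiagonal.mpr (zero_add _)) h4

end supp

end Pool.Agent.H487_FV
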