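import Pool.Agent.H487_FV.Core

/-!
The leading term of a difference of exponential sums: evaluation.
-/

set_option autoImplicit false

namespace Pool.Agent.H487_FV

open Finset

variable {p : ℕ} [Fact p.Prime] {O : Type*} [CommRing O] (T : Trunc p O)
variable {σ : Type*} [Fintype σ] [DecidableEq σ]

set_option linter.unusedSectionVars false

/-- the exponent `(p-1, …, p-1)` -/
noncomputable def top (σ : Type*) [Fintype σ] (p : ℕ) : σ →₀ ℕ :=
  Finsupp.equivFunOnFinite.symm fun _ => p - 1

lemma top_apply (i : σ) : top σ p i = p - 1 := rfl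

/-- evaluation at `Γ = lam`, `x_i = τ (y_i)` -/
noncomputable def ev (y : σ → ZMod p) : Polynomial (MvPolynomial σ O) →+* O :=
  Polynomial.eval₂RingHom (MvPolynomial.eval fun i => T.tau (y i)) T.lam

lemma ev_fac {c : ℕ → O}
    (hc : ∀ a : ZMod p, T.chi a = 1 + ∑ l ∈ Finset.Icc 1 (p - 1), T.lam ^ l * c l * T.tau a ^ l)
    (y : σ → ZMod p) (a : ZMod p) (w : σ →₀ ℕ) :
    ev T y (fac (p - 1) (fun l => c l * T.tau a ^ l) w) = T.chi (a * ∏ i, y i ^ w i) := by
  rw [hc, fac, map_add, map_one, map_sum]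
  congr 1
  refine Finset.sum_congr rfl fun l _ => ?_
  rw [ev, Polynomial.coe_eval₂RingHom, Polynomial.eval₂_monomial, MvPolynomial.eval_monomial,
    T.tau_mul, T.tau_prod, mul_pow, Finsupp.prod_fintype _ _ (fun _ => pow_zero _),
    ← Finset.prod_pow]
  simp only [Finsupp.smul_apply, smul_eq_mul, T.tau_pow, ← pow_mul]
  have h1 : ∀ i, l * w i = w i * l := fun i => mul_comm _ _
  simp only [h1]
  ring

/-- the value of the sum over all points for one monomial -/
lemma sum_mono (E : σ →₀ ℕ) : ∑ y : σ → ZMod p, ∏ i, T.tau (y i) ^ E i =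
    ∏ i, ∑ a : ZMod p, T.tau a ^ E i := by
  rw [Finset.prod_univ_sum, Fintype.piFinset_univ]

lemma mono_zero {R e d j : ℕ} (hd : 2 ≤ d) (hJ : T.J = j + R)
    (hdeg : e + d * j = Fintype.card σ * (p - 1)) {o : ℕ} {E : σ →₀ ℕ}
    (h : R ≤ o ∧ E.degree ≤ e + d * (o - R)) (hne : ¬ (o = T.J ∧ E = top σ p)) :
    T.lam ^ o * ∏ i, ∑ a : ZMod p, T.tau a ^ E i = 0 := by
  classical
  have hp1 : 1 < p := (Fact.out : p.Prime).one_lt
  by_cases hdiv : ∀ i, (p - 1) ∣ E i
  swap
  · push Not at hdiv
    obtain ⟨i, hi⟩ := hdiv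
    rw [Finset.prod_eq_zero (Finset.mem_univ i), mul_zero]
    rw [T.sum_tau_pow, if_neg, if_neg hi]
    intro h0
    exact hi (h0 ▸ dvd_zero _)
  -- all exponents are divisible by `p - 1`
  set Z : Finset σ := Finset.univ.filter fun i => E i = 0 with hZ
  have hprod : ∏ i, ∑ a : ZMod p, T.tau a ^ E i =
      (p : O) ^ Z.card * ((p - 1 : ℕ) : O) ^ (Finset.univ.filter fun i => ¬ E i = 0).card := by
    rw [← Finset.prod_filter_mul_prod_filter_not Finset.univ (fun i => E i = 0)]
    congr 1
    · rw [← Finset.prod_const]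
      refine Finset.prod_congr rfl fun i hi => ?_
      rw [Finset.mem_filter] at hi
      rw [T.sum_tau_pow, if_pos hi.2]
    · rw [← Finset.prod_const]
      refine Finset.prod_congr rfl fun i hi => ?_
      rw [Finset.mem_filter] at hi
      rw [T.sum_tau_pow, if_neg hi.2, if_pos (hdiv i)]
  rw [hprod, T.hp]
  by_cases hbig : T.J + 1 ≤ o + (p - 1) * Z.card
  · have h1 : T.lam ^ o * ((T.lam ^ (p - 1) * T.u) ^ Z.card *
        ((p - 1 : ℕ) : O) ^ (Finset.univ.filter fun i => ¬ E i = 0).card) =
        T.lam ^ (o + (p - 1) * Z.card) * (T.u ^ Z.card *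
        ((p - 1 : ℕ) : O) ^ (Finset.univ.filter fun i => ¬ E i = 0).card) := by
      rw [mul_pow, ← pow_mul, pow_add]; ring
    rw [h1]
    obtain ⟨k, hk⟩ := Nat.exists_eq_add_of_le hbig
    rw [hk, pow_add, T.hlam, zero_mul, zero_mul]
  · exfalso
    push Not at hbig
    have hge : ∀ i, E i ≠ 0 → p - 1 ≤ E i := fun i hi => Nat.le_of_dvd (by omega) (hdiv i)
    have hcard : Z.card + (Finset.univ.filter fun i => ¬ E i = 0).card = Fintype.card σ := by
      rw [hZ, Finset.card_filter_add_card_filter_not, Finset.card_univ]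
    have hsum : (Finset.univ.filter fun i => ¬ E i = 0).card * (p - 1) ≤ E.degree := by
      rw [Finsupp.degree_eq_sum]
      calc _ = ∑ i ∈ Finset.univ.filter (fun i => ¬ E i = 0), (p - 1) := by
            rw [Finset.sum_const, smul_eq_mul]
        _ ≤ ∑ i ∈ Finset.univ.filter (fun i => ¬ E i = 0), E i :=
            Finset.sum_le_sum fun i hi => hge i (Finset.mem_filter.mp hi).2
        _ ≤ ∑ i, E i := Finset.sum_le_sum_of_subset (Finset.filter_subset _ _)
    have h2 := h.2
    have hR := h.1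
    -- the number of zero exponents vanishes
    have h3 : o - R + (p - 1) * Z.card ≤ j := by omega
    have h4 : d * (o - R) + d * ((p - 1) * Z.card) ≤ d * j := by
      rw [← Nat.mul_add]; exact Nat.mul_le_mul_left _ h3
    have h5 : Fintype.card σ * (p - 1) =
        Z.card * (p - 1) + (Finset.univ.filter fun i => ¬ E i = 0).card * (p - 1) := by
      rw [← hcard]; ring
    have h6 : d * ((p - 1) * Z.card) ≤ Z.card * (p - 1) := by omega
    have h7 : 2 * ((p - 1) * Z.card) ≤ d * ((p - 1) * Z.card) := Nat.mul_le_mul_right _ hd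
    have h8 : (p - 1) * Z.card = 0 := by
      rw [mul_comm Z.card] at h6; omega
    have h9 : Z.card = 0 := by
      rcases Nat.mul_eq_zero.mp h8 with h | h
      · omega
      · exact h
    rw [Finset.card_eq_zero] at h9
    have h10 : ∀ i, E i ≠ 0 := by
      intro i hi
      have : i ∈ Z := Finset.mem_filter.mpr ⟨Finset.mem_univ _, hi⟩
      rw [h9] at this
      exact absurd this (Finset.notMem_empty _)
    have h11 : d * (o - R) ≤ d * j := by omega
    have h12 : (Finset.univ.filter fun i => ¬ E i = 0).card = Fintype.card σ := by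
      rw [← hcard, h9, Finset.card_empty, zero_add]
    rw [h12] at hsum
    have h13 : E.degree = Fintype.card σ * (p - 1) := by omega
    have h14 : d * (o - R) = d * j := by omega
    have h15 : o - R = j := Nat.eq_of_mul_eq_mul_left (by omega) h14
    apply hne
    refine ⟨by omega, ?_⟩
    have h16 : ∀ i ∈ Finset.univ, p - 1 ≤ E i := fun i _ => hge i (h10 i)
    have h17 : ∑ i : σ, (p - 1) = ∑ i, E i := by
      rw [Finset.sum_const, Finset.card_univ, smul_eq_mul, ← h13, Finsupp.degree_eq_sum]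
    ext i
    rw [top_apply]
    exact ((Finset.sum_eq_sum_iff_of_le h16).mp h17 i (Finset.mem_univ i)).symm

/-- the sum over all points is given by one coefficient -/
theorem sum_ev {P : Polynomial (MvPolynomial σ O)} {R e d j : ℕ} (hP : Sl P R e d) (hd : 2 ≤ d)
    (hJ : T.J = j + R) (hdeg : e + d * j = Fintype.card σ * (p - 1)) :
    ∑ y : σ → ZMod p, ev T y P = T.lam ^ T.J * (((p - 1 : ℕ) : O) ^ Fintype.card σ *
      MvPolynomial.coeff (top σ p) (P.coeff T.J)) := by
  have hp1 : 1 < p := (Fact.out : p.Prime).one_lt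
  have h1 : ∀ y : σ → ZMod p, ev T y P = ∑ o ∈ P.support, ∑ E ∈ (P.coeff o).support,
      MvPolynomial.coeff E (P.coeff o) * T.lam ^ o * ∏ i, T.tau (y i) ^ E i := by
    intro y
    rw [ev, Polynomial.coe_eval₂RingHom, Polynomial.eval₂_eq_sum, Polynomial.sum_def]
    refine Finset.sum_congr rfl fun o _ => ?_
    rw [MvPolynomial.eval_eq', Finset.sum_mul]
    refine Finset.sum_congr rfl fun E _ => ?_
    ring
  simp only [h1]
  rw [Finset.sum_comm]
  have h2 : ∀ o ∈ P.support, ∑ y : σ → ZMod p, ∑ E ∈ (P.coeff o).support,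
      MvPolynomial.coeff E (P.coeff o) * T.lam ^ o * ∏ i, T.tau (y i) ^ E i =
      ∑ E ∈ (P.coeff o).support,
      MvPolynomial.coeff E (P.coeff o) * (T.lam ^ o * ∏ i, ∑ a : ZMod p, T.tau a ^ E i) := by
    intro o _
    rw [Finset.sum_comm]
    refine Finset.sum_congr rfl fun E _ => ?_
    rw [← Finset.mul_sum, sum_mono, mul_assoc]
  rw [Finset.sum_congr rfl h2]
  have h3 : ∀ o ∈ P.support, ∑ E ∈ (P.coeff o).support,
      MvPolynomial.coeff E (P.coeff o) * (T.lam ^ o * ∏ i, ∑ a : ZMod p, T.tau a ^ E i) =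
      if o = T.J then T.lam ^ T.J * (((p - 1 : ℕ) : O) ^ Fintype.card σ *
        MvPolynomial.coeff (top σ p) (P.coeff T.J)) else 0 := by
    intro o _
    split_ifs with ho
    · subst ho
      rw [Finset.sum_eq_single (top σ p)]
      · have h4 : ∏ i : σ, ∑ a : ZMod p, T.tau a ^ (top σ p) i =
            ((p - 1 : ℕ) : O) ^ Fintype.card σ := by
          rw [← Finset.card_univ, ← Finset.prod_const]
          refine Finset.prod_congr rfl fun i _ => ?_
          rw [top_apply, T.sum_tau_pow, if_neg (by omega), if_pos (dvd_refl _)]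
        rw [h4]; ring
      · intro E hE hne
        rw [mono_zero T hd hJ hdeg (hP _ E (MvPolynomial.mem_support_iff.mp hE))
          (fun h => hne h.2), mul_zero]
      · intro h
        rw [MvPolynomial.notMem_support_iff.mp h, zero_mul]
    · apply Finset.sum_eq_zero
      intro E hE
      rw [mono_zero T hd hJ hdeg (hP _ E (MvPolynomial.mem_support_iff.mp hE))
          (fun h => ho h.1), mul_zero]
  rw [Finset.sum_congr rfl h3, Finset.sum_ite_eq' P.support T.J]
  split_ifs with h
  · rfl
  · rw [Polynomial.notMem_support_iff.mp h, MvPolynomial.coeff_zero, mul_zero, mul_zero]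

end Pool.Agent.H487_FV
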