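import Pool.Agent.H487_FV.Core2

/-!
The leading term of a difference of exponential sums over the prime field.
-/

set_option autoImplicit false
set_option linter.unusedSectionVars false

namespace Pool.Agent.H487_FV

open Finset

/-- truncated divided power exponential of `Γ H`, `H` over a field: the product over the terms
`y` of `H` of `∑_{l < p} (Γ y) ^ l / l!` -/
noncomputable def ab (p : ℕ) {σ k : Type*} [Field k] (H : MvPolynomial σ k) :
    Polynomial (MvPolynomial σ k) :=
  ∏ w ∈ H.support, fac (p - 1) (fun l => (l.factorial : k)⁻¹ * MvPolynomial.coeff w H ^ l) w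

lemma ab_coeff_zero (p : ℕ) {σ k : Type*} [Field k] (H : MvPolynomial σ k) :
    (ab p H).coeff 0 = 1 :=
  coeff_zero_prod _ _ fun _ _ => fac_coeff_zero _ _ _

lemma ab_coeff_one {p : ℕ} (hp : 2 ≤ p) {σ k : Type*} [Field k] (H : MvPolynomial σ k) :
    (ab p H).coeff 1 = H := by
  rw [ab, coeff_one_prod _ _ fun _ _ => fac_coeff_zero _ _ _]
  conv_rhs => rw [H.as_sum]
  refine Finset.sum_congr rfl fun w _ => ?_
  rw [fac_coeff_one (by omega)]
  simp

lemma Sl.ab (p : ℕ) {σ k : Type*} [Field k] {H : MvPolynomial σ k} {d : ℕ}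
    (hH : H.IsHomogeneous d) : Sl (ab p H) 0 0 d := by
  apply Sl.prod_zero
  intro w hw
  apply Sl.fac
  by_contra hne
  exact (MvPolynomial.mem_support_iff.mp hw) (hH.coeff_eq_zero (by omega))

variable {p : ℕ} [Fact p.Prime] {O : Type*} [CommRing O] (T : Trunc p O)
variable {σ : Type*} [Fintype σ] [DecidableEq σ]

/-- the lift of `ab p H` -/
noncomputable def AO (c : ℕ → O) (H : MvPolynomial σ (ZMod p)) : Polynomial (MvPolynomial σ O) :=
  ∏ w ∈ H.support, fac (p - 1) (fun l => c l * T.tau (MvPolynomial.coeff w H) ^ l) w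

lemma AO_coeff_zero (c : ℕ → O) (H : MvPolynomial σ (ZMod p)) : (AO T c H).coeff 0 = 1 :=
  coeff_zero_prod _ _ fun _ _ => fac_coeff_zero _ _ _

lemma Sl.AO (c : ℕ → O) {H : MvPolynomial σ (ZMod p)} {d : ℕ}
    (hH : H.IsHomogeneous d) : Sl (AO T c H) 0 0 d := by
  apply Sl.prod_zero
  intro w hw
  apply Sl.fac
  by_contra hne
  exact (MvPolynomial.mem_support_iff.mp hw) (hH.coeff_eq_zero (by omega))

/-- reduction of coefficients -/
noncomputable def mapR : Polynomial (MvPolynomial σ O) →+* Polynomial (MvPolynomial σ (ZMod p)) :=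
  Polynomial.mapRingHom (MvPolynomial.map T.red)

lemma mapR_AO {c : ℕ → O}
    (hc : ∀ l, 1 ≤ l → l ≤ p - 1 → T.red (c l) * (l.factorial : ZMod p) = 1)
    (H : MvPolynomial σ (ZMod p)) : mapR T (AO T c H) = ab p H := by
  rw [AO, ab, map_prod]
  refine Finset.prod_congr rfl fun w _ => ?_
  rw [fac, fac, map_add, map_one, map_sum]
  congr 1
  refine Finset.sum_congr rfl fun l hl => ?_
  rw [Finset.mem_Icc] at hl
  rw [mapR, Polynomial.coe_mapRingHom, Polynomial.map_monomial, MvPolynomial.map_monomial,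
    map_mul, map_pow, T.red_tau]
  congr 3
  have h1 := hc l hl.1 hl.2
  exact eq_inv_of_mul_eq_one_left h1

lemma chi_sum {ι : Type*} (s : Finset ι) (f : ι → ZMod p) :
    T.chi (∑ i ∈ s, f i) = ∏ i ∈ s, T.chi (f i) := by
  classical
  induction s using Finset.induction_on with
  | empty => simp
  | insert a s ha ih =>
    rw [Finset.sum_insert ha, Finset.prod_insert ha, AddChar.map_add_eq_mul, ih]

lemma ev_AO {c : ℕ → O}
    (hc : ∀ a : ZMod p, T.chi a = 1 + ∑ l ∈ Finset.Icc 1 (p - 1), T.lam ^ l * c l * T.tau a ^ l)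
    (y : σ → ZMod p) (H : MvPolynomial σ (ZMod p)) :
    ev T y (AO T c H) = T.chi (MvPolynomial.eval y H) := by
  rw [AO, map_prod, MvPolynomial.eval_eq', chi_sum]
  exact Finset.prod_congr rfl fun w _ => ev_fac T hc y _ w

lemma coeff_map_coeff (P : Polynomial (MvPolynomial σ O)) (o : ℕ) (E : σ →₀ ℕ) :
    MvPolynomial.coeff E ((mapR T P).coeff o) = T.red (MvPolynomial.coeff E (P.coeff o)) := by
  rw [mapR, Polynomial.coe_mapRingHom, Polynomial.coeff_map, MvPolynomial.coeff_map]

lemma degree_top : (top σ p).degree = Fintype.card σ * (p - 1) := by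
  rw [Finsupp.degree_eq_sum, Finset.sum_congr rfl fun i _ => top_apply i, Finset.sum_const,
    Finset.card_univ, smul_eq_mul]

/-- the top coefficient comes from one product -/
lemma coeff_top_mul {k : Type*} [CommRing k] {A B : Polynomial (MvPolynomial σ k)} {d e j R : ℕ}
    (hd : 1 ≤ d) (hA : Sl A 0 0 d) (hB : Sl B R e (d - 1))
    (hdeg : e + d * j = Fintype.card σ * (p - 1)) :
    MvPolynomial.coeff (top σ p) ((A * B).coeff (j + R)) =
      MvPolynomial.coeff (top σ p) (A.coeff j * B.coeff R) := by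
  classical
  rw [Polynomial.coeff_mul, MvPolynomial.coeff_sum, Finset.sum_eq_single (j, R)]
  · rintro ⟨a, b⟩ hab hne
    rw [Finset.HasAntidiagonal.mem_antidiagonal] at hab
    dsimp only at hab ⊢
    rw [MvPolynomial.coeff_mul]
    apply Finset.sum_eq_zero
    rintro ⟨E₁, E₂⟩ hE
    rw [Finset.HasAntidiagonal.mem_antidiagonal] at hE
    dsimp only at hE ⊢
    by_contra hcon
    have h1 := hA a E₁ (left_ne_zero_of_mul hcon)
    have h2 := hB b E₂ (right_ne_zero_of_mul hcon)
    have h3 : E₁.degree + E₂.degree = Fintype.card σ * (p - 1) := by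
      rw [← map_add, hE, degree_top]
    have h4 : R < b := by
      rcases Nat.lt_or_ge R b with h | h
      · exact h
      · exfalso
        apply hne
        have h5 : b = R := le_antisymm h h2.1
        ext
        · show a = j; omega
        · exact h5
    obtain ⟨m, rfl⟩ : ∃ m, b = R + (m + 1) := ⟨b - R - 1, by omega⟩
    have h5 : a + (m + 1) = j := by omega
    have h6 := h1.2
    have h7 := h2.2
    rw [Nat.sub_zero, zero_add] at h6
    rw [Nat.add_sub_cancel_left] at h7
    obtain ⟨D, rfl⟩ : ∃ D, d = D + 1 := ⟨d - 1, by omega⟩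
    rw [Nat.add_sub_cancel] at h7
    have h8 : (D + 1) * j = (D + 1) * a + D * (m + 1) + (m + 1) := by rw [← h5]; ring
    omega
  · intro h
    exact absurd (Finset.HasAntidiagonal.mem_antidiagonal.mpr (rfl : j + R = j + R)) h

/-- **The leading term of a difference of exponential sums.** -/
theorem core {d j : ℕ} (hd : 2 ≤ d) {H : MvPolynomial σ (ZMod p)} (hH : H.IsHomogeneous d)
    {ι : Type*} [Fintype ι] (G : ι → MvPolynomial σ (ZMod p)) (δ : ι → ℕ)
    (hG : ∀ r, (G r).IsHomogeneous (δ r)) (hδ : ∀ r, δ r ≤ d - 1)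
    (hJ : T.J = j + Fintype.card ι)
    (hdeg : ∑ r, δ r + d * j = Fintype.card σ * (p - 1)) :
    ∃ x : O, T.red x = MvPolynomial.coeff (top σ p) ((ab p H).coeff j * ∏ r, G r) ∧
      ∑ y : σ → ZMod p, T.chi (MvPolynomial.eval y H) *
        ∏ r, (T.chi (MvPolynomial.eval y (G r)) - 1) =
      T.lam ^ T.J * (((p - 1 : ℕ) : O) ^ Fintype.card σ * x) := by
  have hp1 : 1 < p := (Fact.out : p.Prime).one_lt
  obtain ⟨c, hc1, hc2⟩ := T.exists_c
  set B : Polynomial (MvPolynomial σ O) := ∏ r, (AO T c (G r) - 1) with hB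
  have hBS : Sl B (Fintype.card ι) (∑ r, δ r) (d - 1) := by
    have h1 := Sl.prod Finset.univ (fun r => AO T c (G r) - 1) (fun _ => 1) δ (d - 1)
      fun r _ => (Sl.AO T c (hG r)).sub_one (hδ r) (AO_coeff_zero T c _)
    rw [Finset.sum_const, Finset.card_univ, smul_eq_mul, mul_one] at h1
    exact h1
  have hPS : Sl (AO T c H * B) (Fintype.card ι) (∑ r, δ r) d := by
    have h1 := (Sl.AO T c hH).mul (hBS.mono (by omega : d - 1 ≤ d))
    rw [zero_add, zero_add] at h1
    exact h1
  refine ⟨MvPolynomial.coeff (top σ p) ((AO T c H * B).coeff T.J), ?_, ?_⟩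
  · rw [← coeff_map_coeff, map_mul, mapR_AO T hc2, hJ, hB, map_prod]
    have h1 : ∀ r, mapR T (AO T c (G r) - 1) = ab p (G r) - 1 := by
      intro r
      rw [map_sub, map_one, mapR_AO T hc2]
    simp only [h1]
    have hBS' : Sl (∏ r, (ab p (G r) - 1)) (Fintype.card ι) (∑ r, δ r) (d - 1) := by
      have h1 := Sl.prod Finset.univ (fun r => ab p (G r) - 1) (fun _ => 1) δ (d - 1)
        fun r _ => (Sl.ab p (hG r)).sub_one (hδ r) (ab_coeff_zero p _)
      rw [Finset.sum_const, Finset.card_univ, smul_eq_mul, mul_one] at h1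
      exact h1
    rw [coeff_top_mul (by omega) (Sl.ab p hH) hBS' hdeg]
    congr 2
    rw [← Finset.card_univ, coeff_card_prod]
    · refine Finset.prod_congr rfl fun r _ => ?_
      rw [Polynomial.coeff_sub, ab_coeff_one (by omega), Polynomial.coeff_one,
        if_neg (by omega), sub_zero]
    · intro r _
      rw [Polynomial.coeff_sub, ab_coeff_zero, Polynomial.coeff_one_zero, sub_self]
  · rw [← sum_ev T hPS hd hJ hdeg]
    refine Finset.sum_congr rfl fun y _ => ?_
    rw [map_mul, ev_AO T hc1, hB, map_prod]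
    congr 1
    refine Finset.prod_congr rfl fun r _ => ?_
    rw [map_sub, map_one, ev_AO T hc1]

end Pool.Agent.H487_FV
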