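import Pool.Agent.H487_FV.Gauss

/-!
Truncations of the ring of integers of the `p`-th cyclotomic field.
-/

set_option autoImplicit false

namespace Pool.Agent.H487_FV

open NumberField Ideal IsCyclotomicExtension.Rat

section

variable {p : ℕ} [hp : Fact p.Prime] {K : Type*} [Field K] [NumberField K]
  [hK : IsCyclotomicExtension {p} ℚ K] {ζ : K} (hζ : IsPrimitiveRoot ζ p)

include hζ

lemma absNorm_lam : absNorm (span {hζ.toInteger - 1}) = p := by
  have h1 : IsCyclotomicExtension {p ^ (0 + 1)} ℚ K := by rw [zero_add, pow_one]; exact hK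
  have h2 : IsPrimitiveRoot ζ (p ^ (0 + 1)) := by rw [zero_add, pow_one]; exact hζ
  exact absNorm_span_zeta_sub_one p 0 h2

lemma exists_res : ∃ φ : 𝓞 K →+* ZMod p, ∀ x, φ x = 0 → hζ.toInteger - 1 ∣ x := by
  classical
  have h1 : Nat.card (𝓞 K ⧸ span {hζ.toInteger - 1}) = p := absNorm_lam hζ
  have : Finite (𝓞 K ⧸ span {hζ.toInteger - 1}) :=
    Nat.finite_of_card_ne_zero (by rw [h1]; exact hp.out.ne_zero)
  have : Fintype (𝓞 K ⧸ span {hζ.toInteger - 1}) := Fintype.ofFinite _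
  rw [Nat.card_eq_fintype_card] at h1
  refine ⟨((ZMod.ringEquivOfPrime _ hp.out h1).symm.toRingHom).comp
    (Ideal.Quotient.mk (span {hζ.toInteger - 1})), ?_⟩
  intro x hx
  have h2 : (ZMod.ringEquivOfPrime _ hp.out h1).symm
    (Ideal.Quotient.mk (span {hζ.toInteger - 1}) x) = 0 := hx
  rw [map_eq_zero_iff _ (RingEquiv.injective _),
    Ideal.Quotient.eq_zero_iff_mem, mem_span_singleton] at h2
  exact h2

/-- the truncated ring of integers -/
lemma exists_trunc (J : ℕ) : ∃ T : Trunc p (𝓞 K ⧸ span {(hζ.toInteger - 1) ^ (J + 1)}),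
    T.J = J ∧ T.lam = Ideal.Quotient.mk _ (hζ.toInteger - 1) := by
  obtain ⟨φ, hφ⟩ := exists_res hζ
  have hφl : φ (hζ.toInteger - 1) = 0 := by
    have h1 : φ (hζ.toInteger) ^ p = 1 := by
      rw [← map_pow, hζ.toInteger_isPrimitiveRoot.pow_eq_one, map_one]
    have h2 : (φ (hζ.toInteger) - 1) ^ p = 0 := by
      rw [sub_pow_char, h1, one_pow, sub_self]
    rw [map_sub, map_one]
    exact pow_eq_zero_iff (hp.out.ne_zero) |>.mp h2
  obtain ⟨u, hu⟩ := associated_zeta_sub_one_pow_prime p hζ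
  refine ⟨{
    lam := Ideal.Quotient.mk _ (hζ.toInteger - 1)
    J := J
    red := Ideal.Quotient.lift _ φ ?_
    u := Ideal.Quotient.mk _ (u : 𝓞 K)
    hlam := ?_
    hp := ?_
    hz := ?_
    hker := ?_ }, rfl, rfl⟩
  · intro a ha
    rw [mem_span_singleton] at ha
    obtain ⟨b, rfl⟩ := ha
    rw [map_mul, map_pow, hφl, zero_pow (by omega), zero_mul]
  · rw [← map_pow]
    exact Ideal.Quotient.eq_zero_iff_mem.mpr (mem_span_singleton_self _)
  · rw [← map_pow, ← map_mul, hu, map_natCast]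
  · rw [map_sub, map_one, add_sub_cancel, ← map_pow, hζ.toInteger_isPrimitiveRoot.pow_eq_one,
      map_one]
  · intro x hx
    obtain ⟨y, rfl⟩ := Ideal.Quotient.mk_surjective x
    rw [Ideal.Quotient.lift_mk] at hx
    obtain ⟨z, rfl⟩ := hφ y hx
    exact ⟨Ideal.Quotient.mk _ z, by rw [map_mul]⟩

lemma not_dvd_norm {x : 𝓞 K} (hx : ¬ hζ.toInteger - 1 ∣ x) : ¬ (p : ℤ) ∣ Algebra.norm ℤ x := by
  classical
  intro hdvd
  have hcop := isCoprime_of_not_zeta_sub_one_dvd p hζ hx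
  have h0 : x ≠ 0 := fun h => hx (h ▸ dvd_zero _)
  have h1 : Nat.card (𝓞 K ⧸ span {x}) = (Algebra.norm ℤ x).natAbs := absNorm_span_singleton x
  have h2 : p ∣ Nat.card (𝓞 K ⧸ span {x}) := by
    rw [h1]; exact Int.natCast_dvd.mp hdvd
  have h3 : (Algebra.norm ℤ x).natAbs ≠ 0 := by
    rw [Ne, Int.natAbs_eq_zero, Algebra.norm_eq_zero_iff]; exact h0
  have : Finite (𝓞 K ⧸ span {x}) := Nat.finite_of_card_ne_zero (by rw [h1]; exact h3)
  obtain ⟨y, hy⟩ := exists_prime_addOrderOf_dvd_card' p h2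
  obtain ⟨a, b, hab⟩ := hcop
  have h4 : (p : 𝓞 K ⧸ span {x}) * y = 0 := by
    rw [← nsmul_eq_mul, ← hy, addOrderOf_nsmul_eq_zero]
  have h5 : Ideal.Quotient.mk (span {x}) a * (p : 𝓞 K ⧸ span {x}) = 1 := by
    have h6 := congrArg (Ideal.Quotient.mk (span {x})) hab
    rw [map_add, map_mul, map_mul, map_natCast, map_one,
      Ideal.Quotient.eq_zero_iff_mem.mpr (mem_span_singleton_self x), mul_zero, add_zero] at h6
    exact h6
  have h7 : y = 0 := by
    calc y = (Ideal.Quotient.mk (span {x}) a * (p : 𝓞 K ⧸ span {x})) * y := by rw [h5, one_mul]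
      _ = 0 := by rw [mul_assoc, h4, mul_zero]
  rw [h7, addOrderOf_zero] at hy
  exact hp.out.one_lt.ne hy

/-- the valuation of the norm -/
lemma norm_val {s : 𝓞 K} {J : ℕ} (hs : ¬ (hζ.toInteger - 1) ^ (J + 1) ∣ s) :
    s ≠ 0 ∧ padicValRat p (Algebra.norm ℚ (s : K)) ≤ J := by
  have h0 : s ≠ 0 := fun h => hs (h ▸ dvd_zero _)
  refine ⟨h0, ?_⟩
  have hpr : Prime (hζ.toInteger - 1) := hζ.zeta_sub_one_prime'
  obtain ⟨i, t, ht1, ht2⟩ := WfDvdMonoid.max_power_factor h0 hpr.irreducible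
  have hiJ : i ≤ J := by
    by_contra hcon
    apply hs
    rw [ht2]
    exact Dvd.dvd.mul_right (pow_dvd_pow _ (by omega)) _
  have h1 := not_dvd_norm hζ ht1
  have h2 : (Algebra.norm ℤ s).natAbs = p ^ i * (Algebra.norm ℤ t).natAbs := by
    rw [ht2, map_mul, map_pow, Int.natAbs_mul, Int.natAbs_pow]
    congr 2
    rw [← absNorm_span_singleton]
    exact absNorm_lam hζ
  have h3 : ¬ p ∣ (Algebra.norm ℤ t).natAbs := fun h => h1 (Int.natCast_dvd.mpr h)
  have h4 : (Algebra.norm ℤ t).natAbs ≠ 0 := fun h => h3 (h ▸ dvd_zero _)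
  rw [← Algebra.coe_norm_int, padicValRat.of_int, padicValInt, h2,
    padicValNat.mul (pow_ne_zero _ hp.out.ne_zero) h4, padicValNat.prime_pow,
    padicValNat.eq_zero_of_not_dvd h3]
  exact_mod_cast hiJ

end

end Pool.Agent.H487_FV
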