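import Pool.Agent.H487_FV.Core3

/-!
The divided power exponential of a form with isolated singularity modulo the `p`-th powers of the
variables.
-/

set_option autoImplicit false
set_option linter.unusedSectionVars false

namespace Pool.Agent.H487_FV

open Finset MvPolynomial

variable {σ : Type*} {k : Type*} [Field k]

/-- the ideal generated by the `p`-th powers of the variables -/
def Ip (σ k : Type*) [Field k] (p : ℕ) : Ideal (MvPolynomial σ k) where
  carrier := {f | ∀ E, coeff E f ≠ 0 → ∃ i, p ≤ E i}
  add_mem' := by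
    intro a b ha hb E hE
    rw [coeff_add] at hE
    by_cases h : coeff E a = 0
    · rw [h, zero_add] at hE
      exact hb E hE
    · exact ha E h
  zero_mem' := by
    intro E hE
    exact absurd (coeff_zero E) hE
  smul_mem' := by
    classical
    intro c f hf E hE
    rw [smul_eq_mul, coeff_mul] at hE
    obtain ⟨⟨E₁, E₂⟩, h1, h2⟩ := Finset.exists_ne_zero_of_sum_ne_zero hE
    rw [Finset.HasAntidiagonal.mem_antidiagonal] at h1
    dsimp only at h1 h2
    obtain ⟨i, hi⟩ := hf E₂ (right_ne_zero_of_mul h2)
    refine ⟨i, ?_⟩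
    rw [← h1, Finsupp.add_apply]
    omega

lemma mem_Ip {p : ℕ} {f : MvPolynomial σ k} :
    f ∈ Ip σ k p ↔ ∀ E, coeff E f ≠ 0 → ∃ i, p ≤ E i := Iff.rfl

lemma pderiv_mem_Ip {p : ℕ} [CharP k p] (i : σ) {f : MvPolynomial σ k} (hf : f ∈ Ip σ k p) :
    pderiv i f ∈ Ip σ k p := by
  classical
  rw [mem_Ip] at hf ⊢
  intro E hE
  rw [coeff_pderiv] at hE
  obtain ⟨l, hl⟩ := hf _ (left_ne_zero_of_mul hE)
  refine ⟨l, ?_⟩
  rw [Finsupp.add_apply] at hl
  by_cases hil : i = l
  · subst hil
    rw [Finsupp.single_eq_same] at hl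
    by_contra hcon
    have h1 : E i + 1 = p := by omega
    have h2 := right_ne_zero_of_mul hE
    apply h2
    have h3 : ((E i + 1 : ℕ) : k) = 0 := by rw [h1]; exact CharP.cast_eq_zero k p
    exact_mod_cast h3
  · rw [Finsupp.single_eq_of_ne (Ne.symm hil), add_zero] at hl
    exact hl

/-- `∂_i P = Γ g P` modulo the ideal -/
def Rel (p : ℕ) (i : σ) (g : MvPolynomial σ k) (P : Polynomial (MvPolynomial σ k)) : Prop :=
  pderiv i (P.coeff 0) = 0 ∧ ∀ j, pderiv i (P.coeff (j + 1)) - g * P.coeff j ∈ Ip σ k p

lemma Rel.mul {p : ℕ} {i : σ} {g g' : MvPolynomial σ k} {P Q : Polynomial (MvPolynomial σ k)}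
    (hP : Rel p i g P) (hQ : Rel p i g' Q) : Rel p i (g + g') (P * Q) := by
  constructor
  · rw [Polynomial.mul_coeff_zero, Derivation.leibniz, hP.1, hQ.1]
    simp
  · intro j
    have h1 : pderiv i ((P * Q).coeff (j + 1)) =
        (∑ x ∈ antidiagonal j, P.coeff x.1 * pderiv i (Q.coeff (x.2 + 1))) +
        ∑ x ∈ antidiagonal j, Q.coeff x.2 * pderiv i (P.coeff (x.1 + 1)) := by
      rw [Polynomial.coeff_mul, map_sum]
      simp only [Derivation.leibniz, smul_eq_mul]
      rw [Finset.sum_add_distrib]
      congr 1
      · rw [Finset.Nat.sum_antidiagonal_succ']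
        simp only [hQ.1, mul_zero, zero_add]
      · rw [Finset.Nat.sum_antidiagonal_succ]
        simp only [hP.1, mul_zero, zero_add]
    have h2 : pderiv i ((P * Q).coeff (j + 1)) - (g + g') * (P * Q).coeff j =
        (∑ x ∈ antidiagonal j, P.coeff x.1 *
          (pderiv i (Q.coeff (x.2 + 1)) - g' * Q.coeff x.2)) +
        ∑ x ∈ antidiagonal j, Q.coeff x.2 *
          (pderiv i (P.coeff (x.1 + 1)) - g * P.coeff x.1) := by
      rw [h1, Polynomial.coeff_mul, Finset.mul_sum]
      simp only [mul_sub]
      rw [Finset.sum_sub_distrib, Finset.sum_sub_distrib]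
      have h3 : ∑ x ∈ antidiagonal j, (g + g') * (P.coeff x.1 * Q.coeff x.2) =
          ∑ x ∈ antidiagonal j, P.coeff x.1 * (g' * Q.coeff x.2) +
          ∑ x ∈ antidiagonal j, Q.coeff x.2 * (g * P.coeff x.1) := by
        rw [← Finset.sum_add_distrib]
        refine Finset.sum_congr rfl fun x _ => ?_
        ring
      rw [h3]; ring
    rw [h2]
    exact Ideal.add_mem _ (Ideal.sum_mem _ fun x _ => Ideal.mul_mem_left _ _ (hQ.2 x.2))
      (Ideal.sum_mem _ fun x _ => Ideal.mul_mem_left _ _ (hP.2 x.1))

lemma Rel.one (p : ℕ) (i : σ) : Rel p i 0 (1 : Polynomial (MvPolynomial σ k)) := by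
  constructor
  · simp
  · intro j
    rw [Polynomial.coeff_one, if_neg (by omega)]
    simp

lemma Rel.prod {p : ℕ} {i : σ} {ι : Type*} (t : Finset ι) (g : ι → MvPolynomial σ k)
    (P : ι → Polynomial (MvPolynomial σ k)) (h : ∀ r ∈ t, Rel p i (g r) (P r)) :
    Rel p i (∑ r ∈ t, g r) (∏ r ∈ t, P r) := by
  classical
  induction t using Finset.induction_on with
  | empty => simpa using Rel.one p i
  | insert a t ha ih =>
    rw [Finset.prod_insert ha, Finset.sum_insert ha]
    exact (h a (Finset.mem_insert_self a t)).mul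
      (ih fun r hr => h r (Finset.mem_insert_of_mem hr))

/-- the factors of the divided power exponential -/
lemma fac_coeff {p : ℕ} (hp : 2 ≤ p) (a : k) (w : σ →₀ ℕ) (o : ℕ) :
    (fac (p - 1) (fun l => (l.factorial : k)⁻¹ * a ^ l) w).coeff o =
      if o ≤ p - 1 then monomial (o • w) ((o.factorial : k)⁻¹ * a ^ o) else 0 := by
  classical
  rcases Nat.eq_zero_or_pos o with rfl | ho
  · rw [fac_coeff_zero, if_pos (Nat.zero_le _)]
    simp
  · rw [fac, Polynomial.coeff_add, Polynomial.coeff_one, if_neg (by omega), zero_add,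
      Polynomial.finsetSum_coeff]
    simp only [Polynomial.coeff_monomial]
    rw [Finset.sum_ite_eq' (Finset.Icc 1 (p - 1)) o]
    simp only [Finset.mem_Icc, show (1 ≤ o) = True from propext ⟨fun _ => trivial, fun _ => ho⟩,
      true_and]

lemma Rel.fac {p : ℕ} [Fact p.Prime] [CharP k p] (i : σ) (a : k) {w : σ →₀ ℕ}
    (hw : 2 ≤ w.degree) :
    Rel p i (pderiv i (monomial w a))
      (fac (p - 1) (fun l => (l.factorial : k)⁻¹ * a ^ l) w) := by
  classical
  have hp : p.Prime := Fact.out
  have hp2 : 2 ≤ p := hp.two_le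
  constructor
  · rw [fac_coeff_zero]; simp
  · intro j
    rw [fac_coeff hp2, fac_coeff hp2]
    rcases Nat.lt_or_ge j (p - 1) with hj | hj
    · rw [if_pos (by omega), if_pos (by omega)]
      have h1 : pderiv i (monomial ((j + 1) • w) (((j + 1).factorial : k)⁻¹ * a ^ (j + 1))) -
          pderiv i (monomial w a) * monomial (j • w) ((j.factorial : k)⁻¹ * a ^ j) = 0 := by
        rw [pderiv_monomial, pderiv_monomial, monomial_mul, sub_eq_zero]
        rcases Nat.eq_zero_or_pos (w i) with h0 | h0
        · rw [Finsupp.smul_apply, h0]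
          simp
        · have h2 : (j + 1) • w - Finsupp.single i 1 = w - Finsupp.single i 1 + j • w := by
            ext l
            rw [Finsupp.tsub_apply, Finsupp.add_apply, Finsupp.tsub_apply, Finsupp.smul_apply,
              Finsupp.smul_apply, smul_eq_mul, smul_eq_mul]
            by_cases hil : i = l
            · subst hil
              rw [Finsupp.single_eq_same]
              have : (j + 1) * w i = j * w i + w i := by ring
              omega
            · rw [Finsupp.single_eq_of_ne (Ne.symm hil)]
              have : (j + 1) * w l = j * w l + w l := by ring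
              omega
          rw [h2]
          congr 1
          rw [Finsupp.smul_apply, smul_eq_mul, Nat.factorial_succ]
          have h3 : ((j + 1 : ℕ) : k) ≠ 0 := by
            rw [Ne, CharP.cast_eq_zero_iff k p]
            intro h
            have := Nat.le_of_dvd (by omega) h
            omega
          push_cast at h3 ⊢
          rw [mul_inv]
          field_simp
          ring
      rw [h1]
      exact Ideal.zero_mem _
    · rw [if_neg (by omega), map_zero, zero_sub, neg_mem_iff]
      split_ifs with h1
      · have hj' : j = p - 1 := by omega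
        rw [pderiv_monomial, monomial_mul, mem_Ip]
        intro E hE
        rw [coeff_monomial] at hE
        split_ifs at hE with h2
        · subst h2
          by_cases h0 : w i = 0
          · rw [h0] at hE
            simp at hE
          · by_cases hi2 : 2 ≤ w i
            · refine ⟨i, ?_⟩
              rw [Finsupp.add_apply, Finsupp.tsub_apply, Finsupp.single_eq_same,
                Finsupp.smul_apply, smul_eq_mul, hj']
              have : (p - 1) * 2 ≤ (p - 1) * w i := Nat.mul_le_mul_left _ hi2
              omega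
            · have hi1 : w i = 1 := by omega
              obtain ⟨l, hl1, hl2⟩ : ∃ l, l ≠ i ∧ 1 ≤ w l := by
                by_contra hcon
                push Not at hcon
                have h3 : w = Finsupp.single i 1 := by
                  ext l
                  by_cases hli : l = i
                  · subst hli; rw [Finsupp.single_eq_same, hi1]
                  · rw [Finsupp.single_eq_of_ne hli]
                    have := hcon l hli
                    omega
                rw [h3] at hw
                simp at hw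
              refine ⟨l, ?_⟩
              rw [Finsupp.add_apply, Finsupp.tsub_apply, Finsupp.single_eq_of_ne hl1,
                Finsupp.smul_apply, smul_eq_mul, hj']
              have : (p - 1) * 1 ≤ (p - 1) * w l := Nat.mul_le_mul_left _ hl2
              omega
        · exact absurd rfl hE
      · rw [mul_zero]; exact Ideal.zero_mem _

/-- **The differential equation of the divided power exponential.** -/
theorem rel_ab {p : ℕ} [Fact p.Prime] [CharP k p] (i : σ) {H : MvPolynomial σ k} {d : ℕ}
    (hH : H.IsHomogeneous d) (hd : 2 ≤ d) : Rel p i (pderiv i H) (ab p H) := by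
  have h1 := Rel.prod (p := p) (i := i) H.support (fun w => pderiv i (monomial w (coeff w H)))
    (fun w => H487_FV.fac (p - 1) (fun l => (l.factorial : k)⁻¹ * MvPolynomial.coeff w H ^ l) w)
    (by
      intro w hw
      apply Rel.fac
      by_contra hne
      exact (MvPolynomial.mem_support_iff.mp hw) (hH.coeff_eq_zero (by omega)))
  rw [← map_sum, ← MvPolynomial.as_sum] at h1
  exact h1

/-- homogeneity of the coefficients -/
lemma fac_homog {p : ℕ} (hp : 2 ≤ p) (a : k) {w : σ →₀ ℕ} {d : ℕ} (hw : w.degree = d) (o : ℕ) :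
    ((fac (p - 1) (fun l => (l.factorial : k)⁻¹ * a ^ l) w).coeff o).IsHomogeneous (d * o) := by
  rw [fac_coeff hp]
  split_ifs
  · apply isHomogeneous_monomial
    rw [map_nsmul, hw, smul_eq_mul, mul_comm]
  · exact isHomogeneous_zero _ _ _

lemma prod_homog {ι : Type*} (t : Finset ι) (P : ι → Polynomial (MvPolynomial σ k)) (d : ℕ)
    (h : ∀ r ∈ t, ∀ o, ((P r).coeff o).IsHomogeneous (d * o)) :
    ∀ o, ((∏ r ∈ t, P r).coeff o).IsHomogeneous (d * o) := by
  classical
  induction t using Finset.induction_on with
  | empty =>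
    intro o
    rw [Finset.prod_empty, Polynomial.coeff_one]
    split_ifs with h0
    · subst h0
      rw [mul_zero]; exact isHomogeneous_one _ _
    · exact isHomogeneous_zero _ _ _
  | insert a t ha ih =>
    intro o
    rw [Finset.prod_insert ha, Polynomial.coeff_mul]
    apply IsHomogeneous.sum
    intro x hx
    rw [Finset.HasAntidiagonal.mem_antidiagonal] at hx
    have h1 := (h a (Finset.mem_insert_self a t) x.1).mul
      (ih (fun r hr => h r (Finset.mem_insert_of_mem hr)) x.2)
    rwa [← Nat.mul_add, hx] at h1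

lemma ab_homog {p : ℕ} (hp : 2 ≤ p) {H : MvPolynomial σ k} {d : ℕ} (hH : H.IsHomogeneous d)
    (o : ℕ) : ((ab p H).coeff o).IsHomogeneous (d * o) := by
  apply prod_homog
  intro w hw o
  apply fac_homog hp
  by_contra hne
  exact (MvPolynomial.mem_support_iff.mp hw) (hH.coeff_eq_zero hne)

variable [Fintype σ]

/-- **The last nonzero divided power has small codegree.** -/
theorem exists_top {p : ℕ} [Fact p.Prime] [CharP k p] {H : MvPolynomial σ k} {d N : ℕ}
    (hH : H.IsHomogeneous d) (hd : 2 ≤ d)
    (hM : ∀ t, N < t → ∀ q : MvPolynomial σ k, q.IsHomogeneous t →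
      q ∈ Ideal.span (Set.range fun i => pderiv i H)) :
    ∃ (j : ℕ) (c : σ →₀ ℕ), coeff c ((ab p H).coeff j) ≠ 0 ∧ (∀ i, c i ≤ p - 1) ∧
      c.degree = d * j ∧ Fintype.card σ * (p - 1) ≤ d * j + N := by
  classical
  have hp : p.Prime := Fact.out
  have hp2 : 2 ≤ p := hp.two_le
  have hex : ∃ m, (ab p H).coeff (m + 1) ∈ Ip σ k p := by
    refine ⟨Fintype.card σ * (p - 1), ?_⟩
    rw [mem_Ip]
    intro E hE
    by_contra hcon
    push Not at hcon
    have h1 : E.degree = d * (Fintype.card σ * (p - 1) + 1) := by
      by_contra hne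
      exact hE ((ab_homog hp2 hH _).coeff_eq_zero hne)
    have h2 : E.degree ≤ Fintype.card σ * (p - 1) := by
      rw [Finsupp.degree_eq_sum]
      calc ∑ i, E i ≤ ∑ i : σ, (p - 1) := Finset.sum_le_sum fun i _ => by
            have := hcon i; omega
        _ = _ := by rw [Finset.sum_const, Finset.card_univ, smul_eq_mul]
    have h3 : 2 * (Fintype.card σ * (p - 1) + 1) ≤ d * (Fintype.card σ * (p - 1) + 1) :=
      Nat.mul_le_mul_right _ hd
    omega
  set m := Nat.find hex with hm
  have hm1 : (ab p H).coeff (m + 1) ∈ Ip σ k p := Nat.find_spec hex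
  have hm0 : (ab p H).coeff m ∉ Ip σ k p := by
    rcases Nat.eq_zero_or_pos m with h0 | h0
    · rw [h0, ab_coeff_zero, mem_Ip]
      intro hcon
      obtain ⟨i, hi⟩ := hcon 0 (by rw [coeff_zero_one]; exact one_ne_zero)
      rw [Finsupp.coe_zero, Pi.zero_apply] at hi
      omega
    · have h1 := Nat.find_min hex (m := m - 1) (by omega)
      rwa [show m - 1 + 1 = m by omega] at h1
  have hker : ∀ q ∈ Ideal.span (Set.range fun i => pderiv i H),
      q * (ab p H).coeff m ∈ Ip σ k p := by
    intro q hq
    refine Submodule.span_induction (p := fun q _ => q * (ab p H).coeff m ∈ Ip σ k p) ?_ ?_ ?_ ?_ hq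
    · rintro _ ⟨i, rfl⟩
      have h1 := (rel_ab i hH hd).2 m
      have h2 := pderiv_mem_Ip i hm1
      have h3 := Ideal.sub_mem _ h2 h1
      rwa [sub_sub_cancel] at h3
    · rw [zero_mul]; exact Ideal.zero_mem _
    · intro x y _ _ hx hy
      rw [add_mul]; exact Ideal.add_mem _ hx hy
    · intro a x _ hx
      rw [smul_eq_mul, mul_assoc]; exact Ideal.mul_mem_left _ _ hx
  rw [mem_Ip] at hm0
  push Not at hm0
  obtain ⟨c, hc1, hc2⟩ := hm0
  have hcd : c.degree = d * m := by
    by_contra hne
    exact hc1 ((ab_homog hp2 hH _).coeff_eq_zero hne)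
  have hcle : ∀ i, c i ≤ p - 1 := fun i => by have := hc2 i; omega
  refine ⟨m, c, hc1, hcle, hcd, ?_⟩
  by_contra hcon
  push Not at hcon
  set γ : σ →₀ ℕ := top σ p - c with hγ
  have hγc : γ + c = top σ p := by
    ext i
    rw [Finsupp.add_apply, hγ, Finsupp.tsub_apply, top_apply]
    have := hcle i; omega
  have hγd : γ.degree + c.degree = Fintype.card σ * (p - 1) := by
    rw [← map_add, hγc, Finsupp.degree_eq_sum, Finset.sum_congr rfl fun i _ => top_apply i,
      Finset.sum_const, Finset.card_univ, smul_eq_mul]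
  have h1 := hker _ (hM γ.degree (by omega) (monomial γ 1) (isHomogeneous_monomial _ rfl))
  rw [mem_Ip] at h1
  obtain ⟨i, hi⟩ := h1 (top σ p) (by
    rw [← hγc, coeff_monomial_mul, one_mul]
    exact hc1)
  rw [top_apply] at hi
  omega

end Pool.Agent.H487_FV
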