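import Mathlib

/-!
Expansion of the additive character of `𝔽_p` in Teichmüller elements, in a truncated ring.
-/

set_option autoImplicit false

namespace Pool.Agent.H487_FV

open Finset

/-- The data of a truncated ring `O` with a nilpotent uniformiser `lam` and a `p`-th root of unity
`1 + lam`. -/
structure Trunc (p : ℕ) [Fact p.Prime] (O : Type*) [CommRing O] where
  /-- the uniformiser -/
  lam : O
  /-- the precision -/
  J : ℕ
  /-- the reduction -/
  red : O →+* ZMod p
  /-- `p / lam ^ (p - 1)` -/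
  u : O
  hlam : lam ^ (J + 1) = 0
  hp : (p : O) = lam ^ (p - 1) * u
  hz : (1 + lam) ^ p = 1
  hker : ∀ x, red x = 0 → ∃ y, x = lam * y

namespace Trunc

variable {p : ℕ} [Fact p.Prime] {O : Type*} [CommRing O] (T : Trunc p O)

lemma red_lam : T.red T.lam = 0 := by
  have h := congrArg T.red T.hlam
  rw [map_pow, map_zero] at h
  exact pow_eq_zero_iff (n := T.J + 1) (by omega) |>.mp h

lemma isUnit_of_red {x : O} (hx : T.red x ≠ 0) : IsUnit x := by
  have h1 : T.red (x * (((T.red x)⁻¹.val : ℕ) : O) - 1) = 0 := by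
    rw [map_sub, map_mul, map_natCast, ZMod.natCast_val, ZMod.cast_id', id, mul_inv_cancel₀ hx,
      map_one, sub_self]
  obtain ⟨y, hy⟩ := T.hker _ h1
  have h2 : x * (((T.red x)⁻¹.val : ℕ) : O) = 1 + T.lam * y := by rw [← hy]; ring
  have h3 : IsUnit (1 + T.lam * y) := by
    apply IsNilpotent.isUnit_one_add
    exact ⟨T.J + 1, by rw [mul_pow, T.hlam, zero_mul]⟩
  rw [← h2] at h3
  exact isUnit_of_mul_isUnit_left h3

lemma p_pow : (p : O) ^ (T.J + 1) = 0 := by
  have hp1 : 1 < p := (Fact.out : p.Prime).one_lt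
  rw [T.hp, mul_pow, ← pow_mul, show (p - 1) * (T.J + 1) = (T.J + 1) + (p - 2) * (T.J + 1) by
    obtain ⟨k, rfl⟩ : ∃ k, p = k + 2 := ⟨p - 2, by omega⟩
    simp only [Nat.add_sub_cancel, show k + 2 - 1 = k + 1 by omega]; ring,
    pow_add, T.hlam, zero_mul, zero_mul]

/-- the Teichmüller element -/
def tau (a : ZMod p) : O := (a.val : O) ^ (p ^ T.J)

lemma pow_congr {x y : O} (h : (p : O) ∣ x - y) : x ^ (p ^ T.J) = y ^ (p ^ T.J) := by
  have h1 := dvd_sub_pow_of_dvd_sub h T.J
  rw [T.p_pow, zero_dvd_iff, sub_eq_zero] at h1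
  exact h1

lemma natCast_congr {a b : ℕ} (h : (a : ZMod p) = b) : (p : O) ∣ (a : O) - b := by
  rw [ZMod.natCast_eq_natCast_iff] at h
  obtain ⟨c, hc⟩ := (Nat.modEq_iff_dvd.mp h.symm)
  refine ⟨(c : O), ?_⟩
  have := congrArg (Int.cast : ℤ → O) hc
  push_cast at this
  exact this

lemma tau_mul (a b : ZMod p) : T.tau (a * b) = T.tau a * T.tau b := by
  rw [tau, tau, tau, ← mul_pow]
  apply T.pow_congr
  rw [← Nat.cast_mul]
  apply natCast_congr
  simp

lemma tau_one : T.tau 1 = 1 := by
  have hp1 : 1 < p := (Fact.out : p.Prime).one_lt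
  have : Fact (1 < p) := ⟨hp1⟩
  rw [tau, ZMod.val_one, Nat.cast_one, one_pow]

lemma tau_zero : T.tau 0 = 0 := by
  have hp1 : 1 < p := (Fact.out : p.Prime).one_lt
  rw [tau, ZMod.val_zero, Nat.cast_zero, zero_pow]
  exact pow_ne_zero _ (by omega)

lemma tau_pow (a : ZMod p) (k : ℕ) : T.tau (a ^ k) = T.tau a ^ k := by
  induction k with
  | zero => rw [pow_zero, pow_zero, tau_one]
  | succ k ih => rw [pow_succ, tau_mul, ih, pow_succ]

lemma red_tau (a : ZMod p) : T.red (T.tau a) = a := by
  rw [tau, map_pow, map_natCast, ZMod.natCast_val, ZMod.cast_id', id, ZMod.pow_card_pow]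

lemma tau_prod {ι : Type*} (s : Finset ι) (f : ι → ZMod p) :
    T.tau (∏ i ∈ s, f i) = ∏ i ∈ s, T.tau (f i) := by
  classical
  induction s using Finset.induction_on with
  | empty => simp [tau_one]
  | insert a s ha ih => rw [Finset.prod_insert ha, Finset.prod_insert ha, tau_mul, ih]

/-- the additive character -/
noncomputable def chi : AddChar (ZMod p) O := AddChar.zmodChar p T.hz

lemma chi_apply (a : ZMod p) : T.chi a = (1 + T.lam) ^ a.val := by
  rw [chi, AddChar.zmodChar_apply]

lemma chi_eq (b : ZMod p) : T.chi b = (1 + T.lam) ^ (b.val ^ (p ^ T.J)) := by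
  rw [chi_apply, pow_eq_pow_mod (b.val ^ (p ^ T.J)) T.hz]
  congr 1
  have h1 : ((b.val ^ (p ^ T.J) : ℕ) : ZMod p) = ((b.val : ℕ) : ZMod p) := by
    push_cast
    rw [ZMod.natCast_val, ZMod.cast_id', id, ZMod.pow_card_pow]
  rw [ZMod.natCast_eq_natCast_iff] at h1
  have h2 : b.val % p = b.val := Nat.mod_eq_of_lt (ZMod.val_lt b)
  exact (Eq.trans h1 h2).symm

/-- sums of powers of Teichmüller elements -/
lemma sum_tau_pow (m : ℕ) : ∑ a, T.tau a ^ m =
    if m = 0 then (p : O) else if (p - 1) ∣ m then ((p - 1 : ℕ) : O) else 0 := by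
  have hp1 : 1 < p := (Fact.out : p.Prime).one_lt
  split_ifs with h0 h1
  · subst h0
    simp [ZMod.card]
  · rw [← Finset.add_sum_erase _ _ (Finset.mem_univ (0 : ZMod p)), tau_zero, zero_pow h0, zero_add]
    rw [Finset.sum_congr rfl (g := fun _ => (1 : O))]
    · rw [Finset.sum_const, Finset.card_erase_of_mem (Finset.mem_univ _), Finset.card_univ,
        ZMod.card, nsmul_eq_mul, mul_one]
    · intro a ha
      obtain ⟨k, rfl⟩ := h1
      rw [← tau_pow, pow_mul, ZMod.pow_card_sub_one_eq_one (Finset.ne_of_mem_erase ha), one_pow,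
        tau_one]
  · obtain ⟨b, hb⟩ : ∃ b : (ZMod p)ˣ, b ^ m ≠ 1 := by
      by_contra hcon
      push Not at hcon
      apply h1
      have := (FiniteField.forall_pow_eq_one_iff (ZMod p) m).mp hcon
      rwa [ZMod.card] at this
    have h2 : ∑ a, T.tau a ^ m = T.tau (b : ZMod p) ^ m * ∑ a, T.tau a ^ m := by
      rw [Finset.mul_sum]
      rw [← Equiv.sum_comp (Units.mulLeft b)]
      refine Finset.sum_congr rfl fun a _ => ?_
      rw [Units.mulLeft_apply, tau_mul, mul_pow]
    have h3 : (1 - T.tau (b : ZMod p) ^ m) * ∑ a, T.tau a ^ m = 0 := by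
      rw [sub_mul, one_mul, ← h2, sub_self]
    have h4 : IsUnit (1 - T.tau (b : ZMod p) ^ m) := by
      apply T.isUnit_of_red
      rw [map_sub, map_one, map_pow, red_tau, sub_ne_zero]
      intro h
      apply hb
      ext
      rw [Units.val_pow_eq_pow_val, ← h, Units.val_one]
    exact h4.mul_right_eq_zero.mp h3

/-- pairing of a polynomial function with a power of the Teichmüller character -/
lemma sum_poly (P : Polynomial ℤ) (hP0 : P.coeff 0 = 0) (l : ℕ) (hl : l ≤ p - 1)
    (hdeg : P.natDegree ≤ l) (hl1 : 1 ≤ l) :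
    ∑ b : ZMod p, ((P.eval ((b.val ^ (p ^ T.J) : ℕ) : ℤ) : ℤ) : O) * T.tau b ^ (p - 1 - l) =
      (P.coeff l : O) * ((p - 1 : ℕ) : O) := by
  have hp1 : 1 < p := (Fact.out : p.Prime).one_lt
  have h1 : ∀ b : ZMod p, ((P.eval ((b.val ^ (p ^ T.J) : ℕ) : ℤ) : ℤ) : O) =
      ∑ i ∈ Finset.range (l + 1), (P.coeff i : O) * T.tau b ^ i := by
    intro b
    rw [Polynomial.eval_eq_sum_range' (Nat.lt_succ_of_le hdeg)]
    push_cast
    rfl
  simp only [h1, Finset.sum_mul]
  rw [Finset.sum_comm, Finset.sum_eq_single l]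
  · have h2 : ∀ b : ZMod p, (P.coeff l : O) * T.tau b ^ l * T.tau b ^ (p - 1 - l) =
        (P.coeff l : O) * T.tau b ^ (p - 1) := by
      intro b
      rw [mul_assoc, ← pow_add, show l + (p - 1 - l) = p - 1 by omega]
    simp only [h2]
    rw [← Finset.mul_sum, sum_tau_pow, if_neg (by omega), if_pos (dvd_refl _)]
  · intro i hi hil
    rw [Finset.mem_range] at hi
    rcases Nat.eq_zero_or_pos i with rfl | hi0
    · simp [hP0]
    · have h2 : ∀ b : ZMod p, (P.coeff i : O) * T.tau b ^ i * T.tau b ^ (p - 1 - l) =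
          (P.coeff i : O) * T.tau b ^ (i + (p - 1 - l)) := by
        intro b
        rw [mul_assoc, ← pow_add]
      simp only [h2]
      rw [← Finset.mul_sum, sum_tau_pow, if_neg (by omega), if_neg, mul_zero]
      intro hdvd
      have := Nat.le_of_dvd (by omega) hdvd
      omega
  · intro h
    exact absurd (Finset.mem_range.mpr (Nat.lt_succ_self l)) h

/-- moments of binomial coefficients -/
lemma sum_choose (j l : ℕ) (hj : 1 ≤ j) (hl : l ≤ p - 1) (hjl : j ≤ l) :
    (j.factorial : O) * ∑ b : ZMod p, ((b.val ^ (p ^ T.J)).choose j : O) * T.tau b ^ (p - 1 - l) =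
      if j = l then ((p - 1 : ℕ) : O) else 0 := by
  have h1 := T.sum_poly (descPochhammer ℤ j) (by
      rw [Polynomial.coeff_zero_eq_eval_zero, descPochhammer_eval_zero, if_neg (by omega)]) l hl
      (by rw [descPochhammer_natDegree]; exact hjl) (by omega)
  rw [Finset.mul_sum]
  have h2 : ∀ b : ZMod p, (j.factorial : O) * (((b.val ^ (p ^ T.J)).choose j : O) *
      T.tau b ^ (p - 1 - l)) = (((descPochhammer ℤ j).eval ((b.val ^ (p ^ T.J) : ℕ) : ℤ) : ℤ) : O) *
      T.tau b ^ (p - 1 - l) := by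
    intro b
    rw [← mul_assoc]
    congr 1
    rw [descPochhammer_eval_eq_descFactorial, Nat.descFactorial_eq_factorial_mul_choose]
    push_cast
    ring
  simp only [h2]
  rw [h1]
  split_ifs with h
  · subst h
    have h3 : (descPochhammer ℤ j).coeff j = 1 := by
      have := monic_descPochhammer ℤ j
      rw [Polynomial.Monic, Polynomial.leadingCoeff, descPochhammer_natDegree] at this
      exact this
    rw [h3]; simp
  · rw [Polynomial.coeff_eq_zero_of_natDegree_lt (by rw [descPochhammer_natDegree]; omega)]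
    simp

include T in
lemma isUnit_factorial {j : ℕ} (hj : j < p) : IsUnit (j.factorial : O) := by
  apply T.isUnit_of_red
  rw [map_natCast, Ne, ZMod.natCast_eq_zero_iff, (Fact.out : p.Prime).dvd_factorial]
  omega

include T in
lemma isUnit_pred : IsUnit ((p - 1 : ℕ) : O) := by
  have hp1 : 1 < p := (Fact.out : p.Prime).one_lt
  apply T.isUnit_of_red
  rw [map_natCast, Ne, ZMod.natCast_eq_zero_iff]
  intro h
  have := Nat.le_of_dvd (by omega) h
  omega

lemma tau_pow_pred {a : ZMod p} (ha : a ≠ 0) : T.tau a ^ (p - 1) = 1 := by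
  rw [← tau_pow, ZMod.pow_card_sub_one_eq_one ha, tau_one]

lemma geom_zero {a b : ZMod p} (ha : a ≠ 0) (hb : b ≠ 0) (hab : a ≠ b) :
    ∑ i ∈ Finset.range (p - 1), T.tau a ^ i * T.tau b ^ (p - 1 - 1 - i) = 0 := by
  have h1 := geom_sum₂_mul (T.tau a) (T.tau b) (p - 1)
  rw [T.tau_pow_pred ha, T.tau_pow_pred hb, sub_self] at h1
  have h2 : IsUnit (T.tau a - T.tau b) := by
    apply T.isUnit_of_red
    rw [map_sub, red_tau, red_tau, sub_ne_zero]
    exact hab
  exact h2.mul_left_eq_zero.mp h1

/-- the expansion of the additive character -/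
theorem exists_c : ∃ c : ℕ → O,
    (∀ a : ZMod p, T.chi a = 1 + ∑ l ∈ Finset.Icc 1 (p - 1), T.lam ^ l * c l * T.tau a ^ l) ∧
    (∀ l, 1 ≤ l → l ≤ p - 1 → T.red (c l) * (l.factorial : ZMod p) = 1) := by
  classical
  have hp1 : 1 < p := (Fact.out : p.Prime).one_lt
  set nb : ZMod p → ℕ := fun b => b.val ^ (p ^ T.J) with hnb
  set B : ℕ := ∑ b, nb b + p with hB
  have hBb : ∀ b, nb b ≤ B := fun b =>
    (Finset.single_le_sum (f := nb) (fun _ _ => Nat.zero_le _) (Finset.mem_univ b)).trans
      (Nat.le_add_right _ _)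
  obtain ⟨v, hv⟩ := T.isUnit_pred.exists_left_inv
  set s : ℕ → ℕ → O := fun j l => ∑ b : ZMod p, ((nb b).choose j : O) * T.tau b ^ (p - 1 - l)
    with hs
  have hs0 : ∀ j l, 1 ≤ j → j < l → l ≤ p - 1 → s j l = 0 := by
    intro j l hj hjl hl
    have h1 := T.sum_choose j l hj hl hjl.le
    rw [if_neg (by omega)] at h1
    exact (T.isUnit_factorial (j := j) (by omega)).mul_right_eq_zero.mp h1
  have hchi : ∀ b, T.chi b - 1 = ∑ j ∈ Finset.Icc 1 B, T.lam ^ j * ((nb b).choose j : O) := by
    intro b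
    rw [T.chi_eq, add_comm, add_pow]
    have h1 : ∑ m ∈ Finset.range (nb b + 1), T.lam ^ m * 1 ^ (nb b - m) * ((nb b).choose m : O) =
        ∑ m ∈ Finset.range (B + 1), T.lam ^ m * ((nb b).choose m : O) := by
      rw [← Finset.sum_subset (Finset.range_mono (Nat.succ_le_succ (hBb b)))]
      · refine Finset.sum_congr rfl fun m _ => ?_
        rw [one_pow, mul_one]
      · intro m _ hm
        rw [Finset.mem_range] at hm
        rw [Nat.choose_eq_zero_of_lt (by omega), Nat.cast_zero, mul_zero]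
    rw [h1, Finset.range_eq_Ico, Finset.sum_eq_sum_Ico_succ_bot (by omega)]
    simp only [pow_zero, Nat.choose_zero_right, Nat.cast_one, mul_one, zero_add]
    rw [add_sub_cancel_left]
    rfl
  refine ⟨fun l => v * ∑ j ∈ Finset.Icc l B, T.lam ^ (j - l) * s j l, ?_, ?_⟩
  · intro a
    have h1 : ∀ l ∈ Finset.Icc 1 (p - 1),
        T.lam ^ l * (v * ∑ j ∈ Finset.Icc l B, T.lam ^ (j - l) * s j l) * T.tau a ^ l =
        v * ∑ b : ZMod p, (T.chi b - 1) * (T.tau b ^ (p - 1 - l) * T.tau a ^ l) := by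
      intro l hl
      rw [Finset.mem_Icc] at hl
      have h2 : T.lam ^ l * ∑ j ∈ Finset.Icc l B, T.lam ^ (j - l) * s j l =
          ∑ j ∈ Finset.Icc 1 B, T.lam ^ j * s j l := by
        rw [Finset.mul_sum, ← Finset.sum_subset (Finset.Icc_subset_Icc_left hl.1)]
        · refine Finset.sum_congr rfl fun j hj => ?_
          rw [Finset.mem_Icc] at hj
          rw [← mul_assoc, ← pow_add, show l + (j - l) = j by omega]
        · intro j hj hj2
          rw [Finset.mem_Icc] at hj hj2
          rw [hs0 j l (by omega) (by omega) (by omega), mul_zero]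
      have h3 : ∑ j ∈ Finset.Icc 1 B, T.lam ^ j * s j l =
          ∑ b : ZMod p, (T.chi b - 1) * T.tau b ^ (p - 1 - l) := by
        simp only [hchi, Finset.sum_mul, hs, Finset.mul_sum]
        rw [Finset.sum_comm]
        refine Finset.sum_congr rfl fun b _ => Finset.sum_congr rfl fun j _ => ?_
        ring
      calc _ = v * (T.lam ^ l * ∑ j ∈ Finset.Icc l B, T.lam ^ (j - l) * s j l) * T.tau a ^ l := by
            ring
        _ = _ := by
            rw [h2, h3, mul_assoc, Finset.sum_mul]
            simp only [mul_assoc]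
    rw [Finset.sum_congr rfl h1, ← Finset.mul_sum, Finset.sum_comm]
    have h4 : ∀ b : ZMod p, ∑ l ∈ Finset.Icc 1 (p - 1),
        (T.chi b - 1) * (T.tau b ^ (p - 1 - l) * T.tau a ^ l) =
        if b = a then (T.chi a - 1) * ((p - 1 : ℕ) : O) else 0 := by
      intro b
      rw [← Finset.mul_sum]
      by_cases ha : a = 0
      · subst ha
        have h5 : ∑ l ∈ Finset.Icc 1 (p - 1), T.tau b ^ (p - 1 - l) * T.tau 0 ^ l = 0 := by
          apply Finset.sum_eq_zero
          intro l hl
          rw [Finset.mem_Icc] at hl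
          rw [T.tau_zero, zero_pow (by omega), mul_zero]
        rw [h5, mul_zero]
        split_ifs
        · simp
        · rfl
      by_cases hb : b = 0
      · subst hb
        rw [if_neg (Ne.symm ha)]
        simp
      split_ifs with hab
      · subst hab
        congr 1
        rw [Finset.sum_congr rfl (g := fun _ => (1 : O))]
        · simp
        · intro l hl
          rw [Finset.mem_Icc] at hl
          rw [← pow_add, show p - 1 - l + l = p - 1 by omega, T.tau_pow_pred ha]
      · have h5 : ∑ l ∈ Finset.Icc 1 (p - 1), T.tau b ^ (p - 1 - l) * T.tau a ^ l =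
            T.tau a * ∑ i ∈ Finset.range (p - 1), T.tau a ^ i * T.tau b ^ (p - 1 - 1 - i) := by
          rw [Finset.mul_sum, Finset.range_eq_Ico]
          have h6 := Finset.sum_Ico_add' (fun l => T.tau b ^ (p - 1 - l) * T.tau a ^ l) 0 (p - 1) 1
          rw [zero_add] at h6
          have h7 : Finset.Icc 1 (p - 1) = Finset.Ico 1 (p - 1 + 1) := by
            ext x; rw [Finset.mem_Icc, Finset.mem_Ico]; omega
          rw [h7, ← h6]
          refine Finset.sum_congr rfl fun i hi => ?_
          rw [pow_succ, show p - 1 - (i + 1) = p - 1 - 1 - i by omega]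
          ring
        rw [h5, T.geom_zero ha hb (Ne.symm hab), mul_zero, mul_zero]
    simp only [h4]
    rw [Finset.sum_ite_eq' Finset.univ a, if_pos (Finset.mem_univ _)]
    linear_combination (-(T.chi a - 1)) * hv
  · intro l hl1 hl2
    have h1 := T.sum_choose l l hl1 hl2 le_rfl
    rw [if_pos rfl] at h1
    have h2 : T.red (∑ j ∈ Finset.Icc l B, T.lam ^ (j - l) * s j l) = T.red (s l l) := by
      rw [map_sum, Finset.sum_eq_single l]
      · rw [Nat.sub_self, pow_zero, one_mul]
      · intro j hj hjl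
        rw [Finset.mem_Icc] at hj
        rw [map_mul, map_pow, T.red_lam, zero_pow (by omega), zero_mul]
      · intro h
        exfalso
        apply h
        rw [Finset.mem_Icc]
        omega
    have h3 := congrArg T.red h1
    rw [map_mul, map_natCast, map_natCast] at h3
    have h4 := congrArg T.red hv
    rw [map_mul, map_natCast, map_one] at h4
    rw [map_mul, h2]
    calc T.red v * T.red (s l l) * (l.factorial : ZMod p) =
        T.red v * ((l.factorial : ZMod p) * T.red (s l l)) := by ring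
      _ = T.red v * ((p - 1 : ℕ) : ZMod p) := by rw [h3]
      _ = 1 := h4

end Trunc

end Pool.Agent.H487_FV
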