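import Pool.Agent.H487_FV.Core3

/-!
The divided power exponential commutes with homomorphisms of fields.
-/

set_option autoImplicit false
set_option linter.unusedSectionVars false

namespace Pool.Agent.H487_FV

open Finset MvPolynomial

variable {σ : Type*} {k k' : Type*} [Field k] [Field k']

lemma fac_map {O O' : Type*} [CommRing O] [CommRing O'] (φ : O →+* O') (n : ℕ) (c : ℕ → O)
    (w : σ →₀ ℕ) :
    (fac n c w).map (MvPolynomial.map φ) = fac n (fun l => φ (c l)) w := by
  rw [fac, fac, Polynomial.map_add, Polynomial.map_one, Polynomial.map_sum]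
  congr 1
  refine Finset.sum_congr rfl fun l _ => ?_
  rw [Polynomial.map_monomial, MvPolynomial.map_monomial]

/-- `ab` commutes with homomorphisms of fields -/
lemma ab_map (p : ℕ) (φ : k →+* k') (H : MvPolynomial σ k) :
    (ab p H).map (MvPolynomial.map φ) = ab p (MvPolynomial.map φ H) := by
  have hs : (MvPolynomial.map φ H).support = H.support := by
    ext w
    rw [mem_support_iff, mem_support_iff, coeff_map, Ne, map_eq_zero]
  rw [ab, ab, Polynomial.map_prod, hs]
  refine Finset.prod_congr rfl fun w _ => ?_
  rw [fac_map]
  simp only [map_mul, map_inv₀, map_natCast, map_pow, coeff_map]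

end Pool.Agent.H487_FV
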