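import Pool.Agent.H487_FV.Deriv
import Pool.Agent.H487_FV.Cyc
import Pool.Agent.H487_FV.MapAb
import Pool.Agent.TH144.MB.Macaulay

/-!
The first vertex in a fibre of the leading form map, over the prime field.
-/

set_option autoImplicit false
set_option linter.unusedSectionVars false

namespace Pool.Agent.H487_FV

open Finset MvPolynomial NumberField

section split

variable {σ : Type*}

lemma exists_le_degree (γ : σ →₀ ℕ) (m : ℕ) (hm : m ≤ γ.degree) :
    ∃ β : σ →₀ ℕ, β ≤ γ ∧ β.degree = m := by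
  classical
  induction m with
  | zero => exact ⟨0, zero_le, by simp⟩
  | succ m ih =>
    obtain ⟨β, hβ, hm'⟩ := ih (by omega)
    obtain ⟨i, hi⟩ : ∃ i, β i < γ i := by
      by_contra hcon
      push Not at hcon
      have h1 : γ ≤ β := fun i => hcon i
      have h2 : γ = β := le_antisymm h1 hβ
      rw [h2] at hm
      omega
    refine ⟨β + Finsupp.single i 1, ?_, ?_⟩
    · intro l
      rw [Finsupp.add_apply]
      by_cases hl : l = i
      · subst hl; rw [Finsupp.single_eq_same]; omega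
      · rw [Finsupp.single_eq_of_ne hl]; have := hβ l; omega
    · rw [map_add, hm', Finsupp.degree_single]

lemma exists_split (s R : ℕ) (γ : σ →₀ ℕ) (h : γ.degree ≤ s * R) :
    ∃ g : Fin R → (σ →₀ ℕ), (∀ r, (g r).degree ≤ s) ∧ ∑ r, g r = γ := by
  induction R generalizing γ with
  | zero =>
    refine ⟨fun _ => 0, fun _ => by simp, ?_⟩
    rw [mul_zero, Nat.le_zero, Finsupp.degree_eq_zero_iff] at h
    rw [h]; simp
  | succ R ih =>
    obtain ⟨β, hβ, hm⟩ := exists_le_degree γ (min s γ.degree) (min_le_right _ _)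
    have h1 : (γ - β) + β = γ := tsub_add_cancel_of_le hβ
    have h2 : (γ - β).degree + β.degree = γ.degree := by rw [← map_add, h1]
    obtain ⟨g, hg1, hg2⟩ := ih (γ - β) (by
      rw [Nat.mul_succ] at h
      rcases le_total s γ.degree with h3 | h3
      · rw [min_eq_left h3] at hm; omega
      · rw [min_eq_right h3] at hm
        have : (γ - β).degree = 0 := by omega
        omega)
    refine ⟨Fin.cons β g, ?_, ?_⟩
    · intro r
      refine Fin.cases ?_ (fun r => ?_) r
      · rw [Fin.cons_zero, hm]; exact min_le_left _ _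
      · rw [Fin.cons_succ]; exact hg1 r
    · rw [Fin.sum_univ_succ, Fin.cons_zero]
      simp only [Fin.cons_succ]
      rw [hg2, add_comm, h1]

end split

section diff

variable {p : ℕ} [Fact p.Prime] {O : Type*} [CommRing O] (T : Trunc p O)
variable {σ : Type*} [Fintype σ] [DecidableEq σ]

/-- if the exponential sums of all deformations vanish, so do all the differences -/
lemma diff_zero {d : ℕ} (H : MvPolynomial σ (ZMod p))
    (h0 : ∀ g : MvPolynomial σ (ZMod p), g.totalDegree < d →
      ∑ y : σ → ZMod p, T.chi (MvPolynomial.eval y (H + g)) = 0)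
    {ι : Type*} (t : Finset ι) (G : ι → MvPolynomial σ (ZMod p))
    (hG : ∀ r, (G r).totalDegree < d) (g : MvPolynomial σ (ZMod p)) (hg : g.totalDegree < d) :
    ∑ y : σ → ZMod p, T.chi (MvPolynomial.eval y (H + g)) *
        ∏ r ∈ t, (T.chi (MvPolynomial.eval y (G r)) - 1) = 0 := by
  classical
  induction t using Finset.induction_on generalizing g with
  | empty => simpa using h0 g hg
  | insert a t ha ih =>
    have h1 : (g + G a).totalDegree < d :=
      lt_of_le_of_lt (MvPolynomial.totalDegree_add _ _) (max_lt hg (hG a))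
    have h2 := ih g hg
    have h3 := ih (g + G a) h1
    have h4 : ∀ y : σ → ZMod p, T.chi (MvPolynomial.eval y (H + g)) *
        ∏ r ∈ insert a t, (T.chi (MvPolynomial.eval y (G r)) - 1) =
        T.chi (MvPolynomial.eval y (H + (g + G a))) *
          ∏ r ∈ t, (T.chi (MvPolynomial.eval y (G r)) - 1) -
        T.chi (MvPolynomial.eval y (H + g)) *
          ∏ r ∈ t, (T.chi (MvPolynomial.eval y (G r)) - 1) := by
      intro y
      rw [Finset.prod_insert ha, ← add_assoc, map_add (MvPolynomial.eval y) (H + g),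
        AddChar.map_add_eq_mul]
      ring
    rw [Finset.sum_congr rfl fun y _ => h4 y, Finset.sum_sub_distrib, h3, h2, sub_zero]

end diff

section top

variable {p : ℕ} [Fact p.Prime] {n d : ℕ}

/-- the nonvanishing top coefficient -/
lemma exists_data (hd : 2 ≤ d) {h : MvPolynomial (Fin n) (ZMod p)} (hh : h.IsHomogeneous d)
    (hsm : ∀ x : Fin n → AlgebraicClosure (ZMod p), (∀ i, aeval x (pderiv i h) = 0) → x = 0) :
    ∃ (j R : ℕ) (G : Fin R → MvPolynomial (Fin n) (ZMod p)) (δ : Fin R → ℕ),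
      (∀ r, (G r).IsHomogeneous (δ r)) ∧ (∀ r, δ r ≤ d - 1) ∧
      ∑ r, δ r + d * j = n * (p - 1) ∧
      d * (j + R) ≤ n * (p - 1) + (n + d - 2) ∧
      MvPolynomial.coeff (top (Fin n) p) ((ab p h).coeff j * ∏ r, G r) ≠ 0 := by
  classical
  have hp2 : 2 ≤ p := (Fact.out : p.Prime).two_le
  set φ := algebraMap (ZMod p) (AlgebraicClosure (ZMod p)) with hφ
  have hH : (MvPolynomial.map φ h).IsHomogeneous d := hh.map φ
  obtain ⟨j, c, hc1, hc2, hc3, hc4⟩ := exists_top (p := p) (N := n * (d - 2)) hH hd (by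
    intro t ht q hq
    have h1 := TH144.MB.macaulay_square (K := AlgebraicClosure (ZMod p))
      (fun i : Fin n => pderiv i (MvPolynomial.map φ h)) (fun _ => d - 1)
      (fun i => hH.pderiv) (fun _ => by omega) rfl (by
        intro v hv
        apply hsm v
        intro i
        have h2 := hv i
        rw [pderiv_map, MvPolynomial.eval_map] at h2
        rw [MvPolynomial.aeval_def]
        exact h2) (t := t) (by
        rw [Finset.sum_const, Finset.card_univ, Fintype.card_fin, smul_eq_mul]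
        rwa [show d - 1 - 1 = d - 2 by omega]) hq
    exact h1)
  rw [Fintype.card_fin] at hc4
  have hcoef : coeff c ((ab p h).coeff j) ≠ 0 := by
    intro h0
    apply hc1
    rw [← ab_map p φ h, Polynomial.coeff_map, MvPolynomial.coeff_map, h0, map_zero]
  set γ : Fin n →₀ ℕ := top (Fin n) p - c with hγ
  have hγc : γ + c = top (Fin n) p := by
    ext i
    rw [Finsupp.add_apply, hγ, Finsupp.tsub_apply, top_apply]
    have := hc2 i
    omega
  have hdeg : γ.degree + d * j = n * (p - 1) := by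
    have h1 : γ.degree + c.degree = (top (Fin n) p).degree := by rw [← map_add, hγc]
    rw [degree_top, Fintype.card_fin, hc3] at h1
    exact h1
  set R : ℕ := (γ.degree + (d - 2)) / (d - 1) with hR
  have hR1 : γ.degree ≤ (d - 1) * R := by
    have h1 := Nat.div_add_mod (γ.degree + (d - 2)) (d - 1)
    have h2 := Nat.mod_lt (γ.degree + (d - 2)) (show 0 < d - 1 by omega)
    rw [← hR] at h1
    omega
  have hR2 : (d - 1) * R ≤ γ.degree + (d - 2) := Nat.mul_div_le _ _
  have hR3 : R ≤ n := by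
    by_contra hcon
    push Not at hcon
    have h1 : (d - 1) * (n + 1) ≤ (d - 1) * R := Nat.mul_le_mul_left _ hcon
    obtain ⟨D, rfl⟩ : ∃ D, d = D + 2 := ⟨d - 2, by omega⟩
    rw [show D + 2 - 1 = D + 1 by omega] at h1 hR2
    rw [show D + 2 - 2 = D by omega] at hR2 hc4
    have h2 : (D + 1) * (n + 1) = n * D + n + D + 1 := by ring
    omega
  obtain ⟨g, hg1, hg2⟩ := exists_split (d - 1) R γ hR1
  refine ⟨j, R, fun r => monomial (g r) 1, fun r => (g r).degree, ?_, hg1, ?_, ?_, ?_⟩
  · intro r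
    exact isHomogeneous_monomial _ rfl
  · rw [← map_sum, hg2, hdeg]
  · obtain ⟨D, rfl⟩ : ∃ D, d = D + 2 := ⟨d - 2, by omega⟩
    rw [show D + 2 - 1 = D + 1 by omega] at hR2
    rw [show D + 2 - 2 = D by omega] at hR2
    have h1 : (D + 2) * (j + R) = (D + 2) * j + (D + 1) * R + R := by ring
    omega
  · have h1 : ∏ r, (monomial (g r) (1 : ZMod p)) = monomial γ 1 := by
      rw [← hg2, ← MvPolynomial.monomial_sum_one]
    rw [h1, ← hγc, add_comm γ c, MvPolynomial.coeff_mul_monomial, mul_one]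
    exact hcoef

end top

section final

variable {p : ℕ} [Fact p.Prime] {n d : ℕ}

/-- the exponential sum over the prime field -/
lemma exists_low (hd : 2 ≤ d) {h : MvPolynomial (Fin n) (ZMod p)} (hh : h.IsHomogeneous d)
    (hsm : ∀ x : Fin n → AlgebraicClosure (ZMod p), (∀ i, aeval x (pderiv i h) = 0) → x = 0)
    {K : Type*} [Field K] [NumberField K] [IsCyclotomicExtension {p} ℚ K] {ζ : K}
    (hζ : IsPrimitiveRoot ζ p) :
    ∃ g : MvPolynomial (Fin n) (ZMod p), g.totalDegree < d ∧
      ∑ y : Fin n → ZMod p, ζ ^ (MvPolynomial.eval y (h + g)).val ≠ 0 ∧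
      ∃ J : ℕ, d * J ≤ n * (p - 1) + (n + d - 2) ∧
      padicValRat p (Algebra.norm ℚ
        (∑ y : Fin n → ZMod p, ζ ^ (MvPolynomial.eval y (h + g)).val)) ≤ J := by
  classical
  obtain ⟨j, R, G, δ, hG, hδ, h1, h2, h3⟩ := exists_data hd hh hsm
  obtain ⟨T, hTJ, hTl⟩ := exists_trunc hζ (j + R)
  obtain ⟨x, hx1, hx2⟩ := core T hd hh G δ hG hδ (by rw [hTJ, Fintype.card_fin])
    (by rw [Fintype.card_fin]; exact h1)
  have hGd : ∀ r, (G r).totalDegree < d := fun r =>
    lt_of_le_of_lt (hG r).totalDegree_le (by have := hδ r; omega)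
  have hlam : T.lam ^ T.J ≠ 0 := by
    rw [hTJ, hTl, ← map_pow, Ne, Ideal.Quotient.eq_zero_iff_mem, Ideal.mem_span_singleton]
    intro hdvd
    have hpr : Prime (hζ.toInteger - 1) := hζ.zeta_sub_one_prime'
    rw [pow_dvd_pow_iff hpr.ne_zero hpr.not_isUnit] at hdvd
    omega
  have hne : ¬ ∀ g : MvPolynomial (Fin n) (ZMod p), g.totalDegree < d →
      ∑ y : Fin n → ZMod p, T.chi (MvPolynomial.eval y (h + g)) = 0 := by
    intro hall
    have h4 := diff_zero T h hall Finset.univ G hGd 0 (by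
      rw [MvPolynomial.totalDegree_zero]; omega)
    rw [add_zero, hx2] at h4
    have hu : IsUnit (((p - 1 : ℕ) : 𝓞 K ⧸ Ideal.span {(hζ.toInteger - 1) ^ (j + R + 1)}) ^
        Fintype.card (Fin n) * x) :=
      (T.isUnit_pred.pow _).mul (T.isUnit_of_red (by rw [hx1]; exact h3))
    exact hlam ((hu.mul_left_eq_zero).mp h4)
  push Not at hne
  obtain ⟨g, hg, hne⟩ := hne
  set s : 𝓞 K := ∑ y : Fin n → ZMod p, hζ.toInteger ^ (MvPolynomial.eval y (h + g)).val with hs
  have hsO : Ideal.Quotient.mk (Ideal.span {(hζ.toInteger - 1) ^ (j + R + 1)}) s =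
      ∑ y : Fin n → ZMod p, T.chi (MvPolynomial.eval y (h + g)) := by
    rw [hs, map_sum]
    refine Finset.sum_congr rfl fun y _ => ?_
    rw [T.chi_apply, hTl, map_pow, map_sub, map_one, add_sub_cancel]
  rw [← hsO, Ne, Ideal.Quotient.eq_zero_iff_mem, Ideal.mem_span_singleton] at hne
  have hsK : (s : K) = ∑ y : Fin n → ZMod p, ζ ^ (MvPolynomial.eval y (h + g)).val := by
    rw [hs]
    change algebraMap (𝓞 K) K (∑ y : Fin n → ZMod p, hζ.toInteger ^
      (MvPolynomial.eval y (h + g)).val) = _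
    rw [map_sum]
    refine Finset.sum_congr rfl fun y _ => ?_
    rw [map_pow]
    rfl
  obtain ⟨h5, h6⟩ := norm_val hζ hne
  refine ⟨g, hg, ?_, j + R, h2, ?_⟩
  · rw [← hsK]
    exact fun h0 => h5 (by exact_mod_cast h0)
  · rw [← hsK]; exact h6

/-- **The first vertex in every fibre.** -/
theorem first_vertex (hn : 1 ≤ n) (hd : 2 ≤ d) {h : MvPolynomial (Fin n) (ZMod p)}
    (hh : h.IsHomogeneous d)
    (hsm : ∀ x : Fin n → AlgebraicClosure (ZMod p), (∀ i, aeval x (pderiv i h) = 0) → x = 0) :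
    ∃ f : MvPolynomial (Fin n) (ZMod p), f.totalDegree = d ∧ homogeneousComponent d f = h ∧
      ∀ ζ : CyclotomicField p ℚ, IsPrimitiveRoot ζ p →
        ∑ y : Fin n → ZMod p, ζ ^ (MvPolynomial.eval y f).val ≠ 0 ∧
        (padicValRat p (Algebra.norm ℚ
          (∑ y : Fin n → ZMod p, ζ ^ (MvPolynomial.eval y f).val)) : ℝ) / ((p : ℝ) - 1) ≤
          (n : ℝ) / d + ((n : ℝ) + d - 2) / (d * ((p : ℝ) - 1)) := by
  classical
  have hp2 : 2 ≤ p := (Fact.out : p.Prime).two_le
  have : NeZero p := ⟨(Fact.out : p.Prime).ne_zero⟩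
  have hcyc : IsCyclotomicExtension {p} ℚ (CyclotomicField p ℚ) :=
    CyclotomicField.isCyclotomicExtension p ℚ
  have hnf : NumberField (CyclotomicField p ℚ) := IsCyclotomicExtension.numberField {p} ℚ _
  have hζ₀ := IsCyclotomicExtension.zeta_spec p ℚ (CyclotomicField p ℚ)
  obtain ⟨g, hg, h1, J, hJ, h2⟩ := exists_low hd hh hsm hζ₀
  have hcomp : homogeneousComponent d (h + g) = h := by
    rw [map_add, homogeneousComponent_eq_zero _ _ hg, add_zero,
      homogeneousComponent_of_mem (m := d) (n := d) hh, if_pos rfl]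
  have hh0 : h ≠ 0 := by
    rintro rfl
    have h3 := hsm (fun _ => 1) (fun i => by rw [map_zero, map_zero])
    have h4 := congrFun h3 ⟨0, by omega⟩
    exact one_ne_zero h4
  have hdeg : (h + g).totalDegree = d := by
    apply le_antisymm
    · exact (totalDegree_add _ _).trans (max_le hh.totalDegree_le hg.le)
    · by_contra hcon
      push Not at hcon
      rw [homogeneousComponent_eq_zero _ _ hcon] at hcomp
      exact hh0 hcomp.symm
  refine ⟨h + g, hdeg, hcomp, fun ζ hζ => ?_⟩
  have hirr : Irreducible (Polynomial.cyclotomic p ℚ) :=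
    Polynomial.cyclotomic.irreducible_rat (by omega)
  set τ := IsCyclotomicExtension.fromZetaAut hζ hirr with hτ
  have hτ1 : τ (IsCyclotomicExtension.zeta p ℚ (CyclotomicField p ℚ)) = ζ :=
    IsCyclotomicExtension.fromZetaAut_spec hζ hirr
  have hsum : ∑ y : Fin n → ZMod p, ζ ^ (MvPolynomial.eval y (h + g)).val =
      τ (∑ y : Fin n → ZMod p, (IsCyclotomicExtension.zeta p ℚ (CyclotomicField p ℚ)) ^
        (MvPolynomial.eval y (h + g)).val) := by
    rw [map_sum]
    refine Finset.sum_congr rfl fun y _ => ?_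
    rw [map_pow, hτ1]
  rw [hsum]
  refine ⟨fun h0 => h1 ((map_eq_zero_iff _ τ.injective).mp h0), ?_⟩
  rw [Algebra.norm_eq_of_algEquiv τ]
  have hd0 : (0 : ℝ) < d := by exact_mod_cast (by omega : 0 < d)
  have hp0 : (0 : ℝ) < (p : ℝ) - 1 := by
    have : (2 : ℝ) ≤ p := by exact_mod_cast hp2
    linarith
  have h3 : (padicValRat p (Algebra.norm ℚ
        (∑ y : Fin n → ZMod p, (IsCyclotomicExtension.zeta p ℚ (CyclotomicField p ℚ)) ^
          (MvPolynomial.eval y (h + g)).val)) : ℝ) ≤ J := by exact_mod_cast h2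
  have h4 : (d : ℝ) * J ≤ n * ((p : ℝ) - 1) + ((n : ℝ) + d - 2) := by
    have h5 : d * J + 2 + n ≤ n * p + (n + d) := by
      obtain ⟨P, rfl⟩ : ∃ P, p = P + 1 := ⟨p - 1, by omega⟩
      rw [Nat.add_sub_cancel] at hJ
      rw [Nat.mul_succ]
      omega
    have h6 : (d : ℝ) * J + 2 + n ≤ n * p + (n + d) := by exact_mod_cast h5
    linarith
  rw [div_add_div _ _ hd0.ne' (by positivity), div_le_div_iff₀ hp0 (by positivity)]
  have h7 : (padicValRat p (Algebra.norm ℚ
        (∑ y : Fin n → ZMod p, (IsCyclotomicExtension.zeta p ℚ (CyclotomicField p ℚ)) ^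
          (MvPolynomial.eval y (h + g)).val)) : ℝ) * d ≤
        n * ((p : ℝ) - 1) + ((n : ℝ) + d - 2) :=
    le_trans (by rw [mul_comm (d : ℝ)] at h4; exact mul_le_mul_of_nonneg_right h3 hd0.le |>.trans h4)
      le_rfl
  have h8 := mul_le_mul_of_nonneg_right h7 (show (0 : ℝ) ≤ d * ((p : ℝ) - 1) by positivity)
  nlinarith [h8]

end final

end Pool.Agent.H487_FV
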